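import Pool.Agent.Run7.h991.BC.HF

/-!
# MP_9b3711_an: piece AC (helper136)
-/

set_option autoImplicit false

open MeasureTheory FourierTransform SchwartzMap
open scoped ENNReal ContDiff

namespace Run7.h991.BC

namespace ACaux

open PTaux HFaux

variable {n : ℕ}

/-- translation invariance of the Besov functional -/
lemma besov_translate (hSC : S_SC) (Φ : 𝓢(E n, ℂ)) (α p : ℝ) (v : E n → ℂ) (b : E n) :
    besov Φ α p (fun x => v (x - b)) = besov Φ α p v := by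
  obtain ⟨h1, h2⟩ := hSC n Φ v 0 b
  have e1 : (fun x : E n => v ((2 : ℝ) ^ 0 • x - b)) = fun x => v (x - b) := by
    funext x; rw [pow_zero, one_smul]
  rw [e1] at h1
  have h1' : ∀ (j : ℤ) (x : E n), S Φ j (fun x => v (x - b)) x = S Φ j v (x - b) := by
    intro j x
    have := h1 j x
    rw [pow_zero, one_smul] at this
    simpa using this
  have h2' : ∀ f : E n → ℝ≥0∞, ∫⁻ x, f (x - b) = ∫⁻ x, f x := by
    intro f
    have := h2 f
    simpa [side] using this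
  unfold besov
  refine tsum_congr fun j => ?_
  congr 1
  rw [← h2' fun x => ‖blk Φ j v x‖ₑ ^ p]
  refine lintegral_congr fun x => ?_
  congr 2
  cases j with
  | zero => exact h1' 0 x
  | succ j => simp only [blk, h1']

/-- scaling of one block -/
lemma lint_blk_zero (hSC : S_SC) (Φ : 𝓢(E n, ℂ)) (p : ℝ) (v : E n → ℂ) (g : ℕ) (b : E n) :
    ∫⁻ x, ‖blk Φ 0 (fun x => v ((2 : ℝ) ^ g • x - b)) x‖ₑ ^ p =
      ENNReal.ofReal (side g ^ n) * ∫⁻ x, ‖S Φ (-(g : ℤ)) v x‖ₑ ^ p := by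
  obtain ⟨h1, h2⟩ := hSC n Φ v g b
  rw [← h2 fun x => ‖S Φ (-(g : ℤ)) v x‖ₑ ^ p]
  refine lintegral_congr fun x => ?_
  congr 2
  have := h1 0 x
  simpa [blk] using this

lemma lint_blk_succ (hSC : S_SC) (Φ : 𝓢(E n, ℂ)) (p : ℝ) (v : E n → ℂ) (g : ℕ) (b : E n)
    (m : ℕ) (i : ℤ) (hi : (m : ℤ) + 1 - g = i) :
    ∫⁻ x, ‖blk Φ (m + 1) (fun x => v ((2 : ℝ) ^ g • x - b)) x‖ₑ ^ p =
      ENNReal.ofReal (side g ^ n) * ∫⁻ x, ‖S Φ i v x - S Φ (i - 1) v x‖ₑ ^ p := by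
  obtain ⟨h1, h2⟩ := hSC n Φ v g b
  rw [← h2 fun x => ‖S Φ i v x - S Φ (i - 1) v x‖ₑ ^ p]
  refine lintegral_congr fun x => ?_
  congr 2
  simp only [blk]
  rw [h1, h1, hi]
  congr 2
  omega

/-- the dilated kernel -/
lemma lint_dil (hSC : S_SC) (Φ : 𝓢(E n, ℂ)) (k : ℕ) (r : ℝ) :
    ∫⁻ x : E n, ENNReal.ofReal ((1 + (1 / 2) ^ k * ‖x‖) ^ (-r)) =
      ENNReal.ofReal (((2 : ℝ) ^ n) ^ k) * ∫⁻ x : E n, ENNReal.ofReal ((1 + ‖x‖) ^ (-r)) := by
  obtain ⟨-, h2⟩ := hSC n Φ 0 k 0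
  have h := h2 fun x => ENNReal.ofReal ((1 + (1 / 2) ^ k * ‖x‖) ^ (-r))
  have e : ∀ x : E n, (1 + (1 / 2 : ℝ) ^ k * ‖(2 : ℝ) ^ k • x - 0‖) = 1 + ‖x‖ := by
    intro x
    rw [sub_zero, norm_smul, norm_pow, Real.norm_of_nonneg (by norm_num : (0 : ℝ) ≤ 2),
      ← mul_assoc, ← mul_pow]
    norm_num
  simp only [e] at h
  rw [h, ← mul_assoc, ← ENNReal.ofReal_mul (by positivity)]
  have : ((2 : ℝ) ^ n) ^ k * side k ^ n = 1 := by
    unfold side
    rw [← pow_mul, ← pow_mul, mul_comm k n, ← mul_pow]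
    norm_num
  rw [this, ENNReal.ofReal_one, one_mul]

lemma side_rpow (g : ℕ) (s : ℝ) :
    side g ^ ((n : ℝ) - s) = side g ^ n * ((2 : ℝ) ^ s) ^ g := by
  have hs : 0 < side g := by unfold side; positivity
  rw [Real.rpow_sub hs, Real.rpow_natCast, div_eq_mul_inv]
  congr 1
  unfold side
  rw [one_div, inv_pow, Real.inv_rpow (by positivity), inv_inv, ← Real.rpow_natCast 2 g,
    ← Real.rpow_natCast _ g, ← Real.rpow_mul (by norm_num), ← Real.rpow_mul (by norm_num), mul_comm]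

/-- the integral of one low frequency part -/
lemma lint_low (hSC : S_SC) (Φ : 𝓢(E n, ℂ)) {p : ℝ} (hp : 0 < p) (v : E n → ℂ) (M : ℕ) (L C : ℝ)
    (hC0 : 0 ≤ C)
    (hC : ∀ (i : ℕ) (x : E n), ‖S Φ (-(i : ℤ)) v x‖ ≤
      C * (1 / 2) ^ (i * (n + M)) * (1 + (1 / 2) ^ i * ‖x‖) ^ (-L)) (k : ℕ) :
    ∫⁻ x, ‖S Φ (-(k : ℤ)) v x‖ₑ ^ p ≤
      ENNReal.ofReal (C ^ p * ((2 : ℝ) ^ ((n : ℝ) - (n + M) * p)) ^ k) *
        ∫⁻ x : E n, ENNReal.ofReal ((1 + ‖x‖) ^ (-(L * p))) := by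
  set c : ℝ := (C * (1 / 2) ^ (k * (n + M))) ^ p with hc
  have hc0 : 0 ≤ c := by positivity
  have hm : Measurable fun x : E n => ENNReal.ofReal ((1 + (1 / 2) ^ k * ‖x‖) ^ (-(L * p))) := by
    fun_prop
  calc ∫⁻ x, ‖S Φ (-(k : ℤ)) v x‖ₑ ^ p
      ≤ ∫⁻ x : E n, ENNReal.ofReal c *
          ENNReal.ofReal ((1 + (1 / 2) ^ k * ‖x‖) ^ (-(L * p))) := by
        refine lintegral_mono fun x => ?_
        have h1 : (0 : ℝ) < 1 + (1 / 2) ^ k * ‖x‖ := by positivity
        rw [← ofReal_norm, ENNReal.ofReal_rpow_of_nonneg (norm_nonneg _) hp.le,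
          ← ENNReal.ofReal_mul hc0]
        refine ENNReal.ofReal_le_ofReal ?_
        calc ‖S Φ (-(k : ℤ)) v x‖ ^ p
            ≤ (C * (1 / 2) ^ (k * (n + M)) * (1 + (1 / 2) ^ k * ‖x‖) ^ (-L)) ^ p :=
              Real.rpow_le_rpow (norm_nonneg _) (hC k x) hp.le
          _ = c * (1 + (1 / 2) ^ k * ‖x‖) ^ (-(L * p)) := by
              rw [Real.mul_rpow (by positivity) (Real.rpow_nonneg h1.le _),
                ← Real.rpow_mul h1.le, hc]
              congr 2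
              ring
    _ = ENNReal.ofReal c * (ENNReal.ofReal (((2 : ℝ) ^ n) ^ k) *
          ∫⁻ x : E n, ENNReal.ofReal ((1 + ‖x‖) ^ (-(L * p)))) := by
        rw [lintegral_const_mul _ hm, lint_dil hSC Φ]
    _ = _ := by
        rw [← mul_assoc, ← ENNReal.ofReal_mul hc0]
        congr 2
        rw [hc, Real.mul_rpow hC0 (by positivity), mul_assoc]
        congr 1
        rw [one_div, inv_pow, ← Real.rpow_natCast 2 (k * (n + M)), ← Real.rpow_neg (by norm_num),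
          ← Real.rpow_mul (by norm_num), ← pow_mul, ← Real.rpow_natCast 2 (n * k),
          ← Real.rpow_add (by norm_num), ← Real.rpow_natCast _ k, ← Real.rpow_mul (by norm_num)]
        congr 1
        push_cast
        ring

end ACaux

open PTaux HFaux ACaux

theorem AC : S_HF → S_LF → S_PT → S_SC → S_AC := by
  intro hHF hLF hPT hSC n M Φ hn hΦ α p hα hp hp1 hM hnM l w hl hw β hβ hβs Λ
  have hβc : Continuous β := hβ.continuous
  -- the dilates of `β`
  have hdil : ∀ k, ContDiff ℝ ∞ (fun x : E n => β ((l k)⁻¹ • x)) ∧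
      HasCompactSupport (fun x : E n => β ((l k)⁻¹ • x)) := by
    intro k
    refine ⟨hβ.comp (contDiff_const_smul _), ?_⟩
    exact hβs.comp_smul (inv_ne_zero (hl k).1.ne')
  have hBβ : besov Φ α p (cx β) ≠ ⊤ := hHF n Φ hn hΦ α p hα hp hp1 (hβs.toSchwartzMap hβ)
  have hBk : ∀ k, besov Φ α p (cx fun x => β ((l k)⁻¹ • x)) ≠ ⊤ := fun k =>
    hHF n Φ hn hΦ α p hα hp hp1 ((hdil k).2.toSchwartzMap (hdil k).1)
  -- the translated dilates
  have htr : ∀ (k : Fin M) (z : E n), (fun x : E n => β (z + (l k)⁻¹ • (x - z))) =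
      fun x => (fun y => β ((l k)⁻¹ • y)) (x - (1 - l k) • z) := by
    intro k z
    funext x
    congr 1
    have hlk := (hl k).1.ne'
    rw [smul_sub, smul_sub, smul_smul, mul_sub, inv_mul_cancel₀ hlk, mul_one, sub_smul, one_smul]
    abel
  -- the atoms as sums
  set cc : Option (Fin M) → ℝ := fun o => o.elim 1 (fun k => -(w k * ((l k)⁻¹) ^ n)) with hcc
  set FF : E n → Option (Fin M) → E n → ℝ := fun z o =>
    o.elim β (fun k => fun x => β (z + (l k)⁻¹ • (x - z))) with hFF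
  have hsum : ∀ z : E n, atm β l w z = fun x => ∑ i ∈ (Finset.univ : Finset (Option (Fin M))),
      cc i * FF z i x := by
    intro z
    funext x
    rw [Fintype.sum_option]
    simp only [hcc, hFF, Option.elim, one_mul, neg_mul, Finset.sum_neg_distrib]
    unfold atm
    ring
  have hFreg : ∀ (z : E n), ∀ i ∈ (Finset.univ : Finset (Option (Fin M))),
      Continuous (FF z i) ∧ HasCompactSupport (FF z i) := by
    intro z i _
    cases i with
    | none => exact ⟨hβc, hβs⟩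
    | some k =>
      show Continuous (fun x : E n => β (z + (l k)⁻¹ • (x - z))) ∧
        HasCompactSupport (fun x : E n => β (z + (l k)⁻¹ • (x - z)))
      rw [htr k z]
      refine ⟨(hdil k).1.continuous.comp (continuous_id.sub continuous_const), ?_⟩
      exact (hdil k).2.comp_homeomorph (Homeomorph.subRight ((1 - l k) • z))
  have hatmc : ∀ z : E n, Continuous (atm β l w z) := by
    intro z
    rw [hsum z]
    exact continuous_finset_sum _ fun i hi => continuous_const.mul (hFreg z i hi).1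
  have hatmb : ∀ z : E n, ∃ B : ℝ, ∀ x, ‖cx (atm β l w z) x‖ ≤ B := by
    intro z
    choose! B hB using fun i hi => bdd_cx (hFreg z i hi).1 (hFreg z i hi).2
    refine ⟨∑ i ∈ (Finset.univ : Finset (Option (Fin M))), |cc i| * B i, fun x => ?_⟩
    have e : cx (atm β l w z) x = ∑ i ∈ (Finset.univ : Finset (Option (Fin M))),
        (cc i : ℂ) * cx (FF z i) x := by
      rw [hsum z]
      simp only [cx]
      push_cast
      rfl
    rw [e]
    refine (norm_sum_le _ _).trans (Finset.sum_le_sum fun i hi => ?_)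
    rw [norm_mul, Complex.norm_real, Real.norm_eq_abs]
    exact mul_le_mul_of_nonneg_left (hB i hi x) (abs_nonneg _)
  set Bi : Option (Fin M) → ℝ≥0∞ := fun o =>
    o.elim (besov Φ α p (cx β)) (fun k => besov Φ α p (cx fun x => β ((l k)⁻¹ • x))) with hBi
  set Bz : ℝ≥0∞ := ∑ i ∈ (Finset.univ : Finset (Option (Fin M))),
    ENNReal.ofReal (|cc i| ^ p) * Bi i with hBz
  have hBzt : Bz ≠ ⊤ := by
    rw [hBz]
    refine ENNReal.sum_ne_top.2 fun i _ => ENNReal.mul_ne_top ENNReal.ofReal_ne_top ?_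
    cases i with
    | none => exact hBβ
    | some k => exact hBk k
  have hatmB : ∀ z : E n, besov Φ α p (cx (atm β l w z)) ≤ Bz := by
    intro z
    rw [hsum z]
    refine (hPT n Φ α p hp hp1.le (Finset.univ : Finset (Option (Fin M))) cc (FF z)
      (hFreg z)).trans (Finset.sum_le_sum fun i _ => ?_)
    refine mul_le_mul_right ?_ _
    cases i with
    | none => exact le_rfl
    | some k =>
      show besov Φ α p (cx fun x : E n => β (z + (l k)⁻¹ • (x - z))) ≤ _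
      rw [htr k z]
      exact (besov_translate hSC Φ α p (cx fun x => β ((l k)⁻¹ • x)) ((1 - l k) • z)).le
  -- constants
  set L : ℝ := ((n : ℝ) + 1) / p with hL
  have hLp : (n : ℝ) < L * p := by
    rw [hL, div_mul_cancel₀ _ hp.ne']; linarith
  obtain ⟨C0, hC0⟩ := hLF n M Φ hM l w hl hw β hβc hβs Λ L (by positivity)
  set C : ℝ := max C0 0 with hCdef
  have hC0' : 0 ≤ C := le_max_right _ _
  have hC : ∀ z : E n, ‖z‖ ≤ Λ → ∀ (i : ℕ) (x : E n), ‖S Φ (-(i : ℤ)) (cx (atm β l w z)) x‖ ≤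
      C * (1 / 2) ^ (i * (n + M)) * (1 + (1 / 2) ^ i * ‖x‖) ^ (-L) := by
    intro z hz i x
    refine (hC0 z hz i x).trans ?_
    have h1 : (0 : ℝ) < 1 + (1 / 2) ^ i * ‖x‖ := by positivity
    refine mul_le_mul_of_nonneg_right ?_ (Real.rpow_nonneg h1.le _)
    exact mul_le_mul_of_nonneg_right (le_max_left _ _) (by positivity)
  set I : ℝ≥0∞ := ∫⁻ x : E n, ENNReal.ofReal ((1 + ‖x‖) ^ (-(L * p))) with hI
  have hIt : I ≠ ⊤ := lintegral_japanese hLp
  set ϑ : ℝ := (2 : ℝ) ^ ((n : ℝ) - (n + M) * p) with hϑ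
  set κ : ℝ := (2 : ℝ) ^ (α * p) with hκ
  have hϑ0 : 0 < ϑ := Real.rpow_pos_of_pos (by norm_num) _
  have hκ0 : 0 < κ := Real.rpow_pos_of_pos (by norm_num) _
  have hϑκ : ϑ < κ := Real.rpow_lt_rpow_of_exponent_lt (by norm_num) (by linarith)
  set θ : ℝ := ϑ / κ with hθ
  have hθ0 : 0 < θ := div_pos hϑ0 hκ0
  have hθ1 : θ < 1 := (div_lt_one hκ0).2 hϑκ
  have hϑθ : ϑ = κ * θ := by rw [hθ]; field_simp
  set TT : ℝ≥0∞ := ∑' k : ℕ, ENNReal.ofReal (θ ^ k) with hTT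
  have hTt : TT ≠ ⊤ := (summable_geometric_of_lt_one hθ0.le hθ1).tsum_ofReal_ne_top
  have hCp : 0 ≤ C ^ p := Real.rpow_nonneg hC0' _
  refine ⟨ENNReal.ofReal (C ^ p) * I + (ENNReal.ofReal (C ^ p * (1 + ϑ)) * I * TT + Bz) +
    besov Φ α p (cx β), ?_, ?_, ?_⟩
  · refine ENNReal.add_ne_top.2 ⟨ENNReal.add_ne_top.2 ⟨?_, ENNReal.add_ne_top.2 ⟨?_, hBzt⟩⟩, hBβ⟩
    · exact ENNReal.mul_ne_top ENNReal.ofReal_ne_top hIt
    · exact ENNReal.mul_ne_top (ENNReal.mul_ne_top ENNReal.ofReal_ne_top hIt) hTt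
  · intro z hz g b
    set v : E n → ℂ := cx (atm β l w z) with hv
    have hvc : Continuous v := continuous_cx (hatmc z)
    obtain ⟨B, hB⟩ := hatmb z
    have hJ := lint_low hSC Φ hp v M L C hC0' (hC z hz)
    rw [← hI, ← hϑ] at hJ
    have hmeas : ∀ i : ℤ, Measurable fun x => ‖S Φ i v x‖ₑ ^ p := fun i =>
      ((continuous_S Φ i hvc hB).measurable.enorm).pow_const p
    have ht : ∀ k : ℕ, ∫⁻ x, ‖S Φ (-(k : ℤ)) v x - S Φ (-(k : ℤ) - 1) v x‖ₑ ^ p ≤
        ENNReal.ofReal (C ^ p * (1 + ϑ) * ϑ ^ k) * I := by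
      intro k
      have e : (-(k : ℤ) - 1) = -((k + 1 : ℕ) : ℤ) := by push_cast; ring
      rw [e]
      calc ∫⁻ x, ‖S Φ (-(k : ℤ)) v x - S Φ (-((k + 1 : ℕ) : ℤ)) v x‖ₑ ^ p
          ≤ ∫⁻ x, (‖S Φ (-(k : ℤ)) v x‖ₑ ^ p + ‖S Φ (-((k + 1 : ℕ) : ℤ)) v x‖ₑ ^ p) := by
            refine lintegral_mono fun x => ?_
            refine (ENNReal.rpow_le_rpow (enorm_sub_le (E := ℂ)) hp.le).trans ?_
            exact ENNReal.rpow_add_le_add_rpow _ _ hp.le hp1.le
        _ = (∫⁻ x, ‖S Φ (-(k : ℤ)) v x‖ₑ ^ p) + ∫⁻ x, ‖S Φ (-((k + 1 : ℕ) : ℤ)) v x‖ₑ ^ p :=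
            lintegral_add_left (hmeas _) _
        _ ≤ ENNReal.ofReal (C ^ p * ϑ ^ k) * I + ENNReal.ofReal (C ^ p * ϑ ^ (k + 1)) * I :=
            add_le_add (hJ k) (hJ (k + 1))
        _ = _ := by
            rw [← add_mul, ← ENNReal.ofReal_add (by positivity) (by positivity)]
            congr 2
            ring
    set G : ℝ≥0∞ := ENNReal.ofReal (side g ^ n) with hG
    set K : ℝ≥0∞ := ENNReal.ofReal (κ ^ g) with hK
    have hGK : ENNReal.ofReal (side g ^ ((n : ℝ) - α * p)) = G * K := by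
      rw [side_rpow, hG, hK, ENNReal.ofReal_mul (by unfold side; positivity)]
    have hpow : ∀ m : ℕ, (2 : ℝ) ^ ((m : ℝ) * α * p) = κ ^ m := by
      intro m
      rw [hκ, ← Real.rpow_natCast _ m, ← Real.rpow_mul (by norm_num)]
      congr 1
      ring
    rw [hGK]
    show besov Φ α p (fun x => v ((2 : ℝ) ^ g • x - b)) ≤ _
    set a' : E n → ℂ := fun x => v ((2 : ℝ) ^ g • x - b) with ha'
    have e0 : besov Φ α p a' =
        (ENNReal.ofReal ((2 : ℝ) ^ (((0 : ℕ) : ℝ) * α * p)) * ∫⁻ x, ‖blk Φ 0 a' x‖ₑ ^ p) +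
        ((∑ j ∈ Finset.range g, ENNReal.ofReal ((2 : ℝ) ^ (((j + 1 : ℕ) : ℝ) * α * p)) *
          ∫⁻ x, ‖blk Φ (j + 1) a' x‖ₑ ^ p) +
        ∑' j : ℕ, ENNReal.ofReal ((2 : ℝ) ^ (((j + g + 1 : ℕ) : ℝ) * α * p)) *
          ∫⁻ x, ‖blk Φ (j + g + 1) a' x‖ₑ ^ p) := by
      unfold besov
      rw [tsum_eq_zero_add' ENNReal.summable]
      congr 1
      rw [← Summable.sum_add_tsum_nat_add' (k := g) ENNReal.summable]
    rw [e0]
    have p0 : ENNReal.ofReal ((2 : ℝ) ^ (((0 : ℕ) : ℝ) * α * p)) * ∫⁻ x, ‖blk Φ 0 a' x‖ₑ ^ p ≤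
        (ENNReal.ofReal (C ^ p) * I) * (G * K) := by
      rw [hpow, pow_zero, ENNReal.ofReal_one, one_mul, ha', lint_blk_zero hSC Φ p v g b]
      refine (mul_le_mul_right (hJ g) _).trans ?_
      have h1 : ENNReal.ofReal (C ^ p * ϑ ^ g) ≤ ENNReal.ofReal (C ^ p) * K := by
        rw [hK, ← ENNReal.ofReal_mul hCp]
        refine ENNReal.ofReal_le_ofReal (mul_le_mul_of_nonneg_left ?_ hCp)
        exact pow_le_pow_left₀ hϑ0.le hϑκ.le g
      calc G * (ENNReal.ofReal (C ^ p * ϑ ^ g) * I)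
          ≤ G * ((ENNReal.ofReal (C ^ p) * K) * I) :=
            mul_le_mul_right (mul_le_mul_left h1 _) _
        _ = _ := by ring
    have p1 : ∑ j ∈ Finset.range g, ENNReal.ofReal ((2 : ℝ) ^ (((j + 1 : ℕ) : ℝ) * α * p)) *
          ∫⁻ x, ‖blk Φ (j + 1) a' x‖ₑ ^ p ≤
        (ENNReal.ofReal (C ^ p * (1 + ϑ)) * I * TT) * (G * K) := by
      have hj : ∀ j ∈ Finset.range g, ENNReal.ofReal ((2 : ℝ) ^ (((j + 1 : ℕ) : ℝ) * α * p)) *
          ∫⁻ x, ‖blk Φ (j + 1) a' x‖ₑ ^ p ≤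
          (ENNReal.ofReal (C ^ p * (1 + ϑ)) * I) * (G * K) * ENNReal.ofReal (θ ^ (g - 1 - j)) := by
        intro j hj
        rw [Finset.mem_range] at hj
        obtain ⟨k, hk⟩ : ∃ k, g = j + 1 + k := ⟨g - (j + 1), by omega⟩
        have hk' : g - 1 - j = k := by omega
        rw [hk', ha', lint_blk_succ hSC Φ p v g b j (-(k : ℤ)) (by omega), hpow]
        refine (mul_le_mul_right (mul_le_mul_right (ht k) _) _).trans (le_of_eq ?_)
        have h1 : ENNReal.ofReal (κ ^ (j + 1)) * ENNReal.ofReal (C ^ p * (1 + ϑ) * ϑ ^ k) =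
            ENNReal.ofReal (C ^ p * (1 + ϑ)) * K * ENNReal.ofReal (θ ^ k) := by
          rw [hK, ← ENNReal.ofReal_mul (by positivity), ← ENNReal.ofReal_mul (by positivity),
            ← ENNReal.ofReal_mul (by positivity)]
          congr 1
          rw [hk, pow_add κ (j + 1) k]
          have : ϑ ^ k = κ ^ k * θ ^ k := by rw [← mul_pow, ← hϑθ]
          rw [this]
          ring
        calc ENNReal.ofReal (κ ^ (j + 1)) * (ENNReal.ofReal (side g ^ n) *
              (ENNReal.ofReal (C ^ p * (1 + ϑ) * ϑ ^ k) * I))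
            = (ENNReal.ofReal (κ ^ (j + 1)) * ENNReal.ofReal (C ^ p * (1 + ϑ) * ϑ ^ k)) *
              (G * I) := by rw [hG]; ring
          _ = _ := by rw [h1]; ring
      refine (Finset.sum_le_sum hj).trans ?_
      rw [← Finset.mul_sum]
      have h2 : ∑ j ∈ Finset.range g, ENNReal.ofReal (θ ^ (g - 1 - j)) ≤ TT := by
        rw [Finset.sum_range_reflect (fun j => ENNReal.ofReal (θ ^ j)) g]
        exact ENNReal.sum_le_tsum _
      refine (mul_le_mul_right h2 _).trans (le_of_eq ?_)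
      ring
    have p2 : ∑' j : ℕ, ENNReal.ofReal ((2 : ℝ) ^ (((j + g + 1 : ℕ) : ℝ) * α * p)) *
          ∫⁻ x, ‖blk Φ (j + g + 1) a' x‖ₑ ^ p ≤ Bz * (G * K) := by
      have hj : ∀ j : ℕ, ENNReal.ofReal ((2 : ℝ) ^ (((j + g + 1 : ℕ) : ℝ) * α * p)) *
          ∫⁻ x, ‖blk Φ (j + g + 1) a' x‖ₑ ^ p =
          (G * K) * (ENNReal.ofReal ((2 : ℝ) ^ (((j + 1 : ℕ) : ℝ) * α * p)) *
            ∫⁻ x, ‖blk Φ (j + 1) v x‖ₑ ^ p) := by
        intro j
        rw [ha', lint_blk_succ hSC Φ p v g b (j + g) ((j : ℤ) + 1) (by push_cast; ring), hpow,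
          hpow]
        have h1 : ∀ x, S Φ ((j : ℤ) + 1) v x - S Φ ((j : ℤ) + 1 - 1) v x =
            blk Φ (j + 1) v x := by
          intro x
          simp only [blk]
          congr 2
          omega
        simp only [h1]
        have h2 : ENNReal.ofReal (κ ^ (j + g + 1)) = K * ENNReal.ofReal (κ ^ (j + 1)) := by
          rw [hK, ← ENNReal.ofReal_mul (by positivity)]
          congr 1
          ring
        rw [h2, hG]
        ring
      simp only [hj]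
      rw [ENNReal.tsum_mul_left, mul_comm]
      refine mul_le_mul_left ?_ _
      refine le_trans ?_ (hatmB z)
      unfold besov
      rw [tsum_eq_zero_add' (f := fun j : ℕ => ENNReal.ofReal ((2 : ℝ) ^ ((j : ℝ) * α * p)) *
        ∫⁻ x, ‖blk Φ j (cx (atm β l w z)) x‖ₑ ^ p) ENNReal.summable]
      exact le_add_self
    refine (add_le_add p0 (add_le_add p1 p2)).trans ?_
    rw [← add_mul, ← add_mul]
    exact mul_le_mul_left le_self_add _
  · intro b
    have := besov_translate hSC Φ α p (cx β) b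
    refine le_trans (le_of_eq this) le_add_self

end Run7.h991.BC
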