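import Pool.Agent.Run7.h991.BC.SEL

/-!
# Piece DG: a dyadic content estimate
-/

set_option autoImplicit false

open MeasureTheory FourierTransform SchwartzMap
open scoped ENNReal ContDiff

namespace Run7.h991.BC

theorem dg_sum_biUnion_le {α β : Type*} [DecidableEq α] [DecidableEq β] (s : Finset α)
    (t : α → Finset β) (f : β → ℝ) (hf : ∀ b, 0 ≤ f b) :
    ∑ b ∈ s.biUnion t, f b ≤ ∑ a ∈ s, ∑ b ∈ t a, f b := by
  induction s using Finset.induction_on with
  | empty => simp
  | insert a s ha ih =>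
    rw [Finset.biUnion_insert, Finset.sum_insert ha]
    have h1 := Finset.sum_union_inter (s₁ := t a) (s₂ := s.biUnion t) (f := f)
    have h2 : 0 ≤ ∑ b ∈ t a ∩ s.biUnion t, f b := Finset.sum_nonneg fun b _ => hf b
    linarith

theorem card_desc {n : ℕ} (m : Fin n → ℤ) : (desc 1 m).card = 2 ^ n := by
  rw [desc, Fintype.card_piFinset]
  rw [Finset.prod_congr rfl (fun i _ => show (Finset.Ico (2 ^ 1 * m i) (2 ^ 1 * (m i + 1))).card = 2
    by rw [Int.card_Ico]; omega)]
  simp

theorem par_desc {n : ℕ} (m m' : Fin n → ℤ) (h : m' ∈ desc 1 m) : par m' = m := by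
  rw [desc, Fintype.mem_piFinset] at h
  funext i
  have h1 := h i
  rw [Finset.mem_Ico] at h1
  show m' i / 2 = m i
  omega

/-- summation by parts -/
theorem dg_parts (q : ℝ) (b : ℕ → ℝ) (J : ℕ) :
    (1 - q) * ∑ i ∈ Finset.range (J + 1), q ^ i * b i + q ^ (J + 1) * b J =
      b 0 + ∑ i ∈ Finset.range J, q ^ (i + 1) * (b (i + 1) - b i) := by
  induction J with
  | zero => simp; ring
  | succ J ih =>
    rw [Finset.sum_range_succ, Finset.sum_range_succ (fun i => q ^ (i + 1) * (b (i + 1) - b i)) J,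
      ← add_assoc, ← ih]
    ring

theorem dg_claim {n : ℕ} (hDY : S_DY) (θ d c : ℝ) (hd : (n : ℝ) ≤ θ + d) (hc : 0 ≤ c)
    (B I : ℕ → (Fin n → ℤ) → ℝ)
    (hBm : ∀ j m m', m' ∈ desc 1 m → B j m ≤ B (j + 1) m')
    (hBI : ∀ j m, side j ^ n * B j m ≤ I j m)
    (hI : ∀ j m, ∑ m' ∈ desc 1 m, I (j + 1) m' ≤ I j m) (K : Set (E n)) :
    ∀ (r j : ℕ) (m : Fin n → ℤ) (a β : ℝ), β ≤ B j m →
      (∀ x ∈ K, x ∈ cube j m → 1 ≤ a + c * side j ^ θ * (B j m - β) +
        ∑ i ∈ Finset.range r, c * side (j + i + 1) ^ θ *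
          (B (j + i + 1) (cell (j + i + 1) x) - B (j + i) (cell (j + i) x))) →
      ∃ F : Finset (ℕ × (Fin n → ℤ)), (K ∩ cube j m ⊆ ⋃ q ∈ F, cube q.1 q.2) ∧
        (1 - a) * ∑ q ∈ F, side q.1 ^ d + c * side j ^ n * β ≤ c * I j m := by
  classical
  obtain ⟨hpar, hmeas, hvol, hnest, hne, _⟩ := hDY n
  -- the elementary inequality
  have hlam : ∀ (j : ℕ) (m : Fin n → ℤ) (β : ℝ), β ≤ B j m →
      c * side j ^ θ * (B j m - β) * side j ^ d ≤ c * side j ^ n * (B j m - β) := by
    intro j m β hβ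
    have h1 : side j ^ θ * side j ^ d ≤ side j ^ n := by
      rw [← Real.rpow_add (side_pos j), ← Real.rpow_natCast]
      refine Real.rpow_le_rpow_of_exponent_ge (side_pos j) ?_ hd
      have := side_anti (Nat.zero_le j)
      simpa [side] using this
    have h2 : 0 ≤ c * (B j m - β) := mul_nonneg hc (by linarith)
    calc c * side j ^ θ * (B j m - β) * side j ^ d
        = c * (B j m - β) * (side j ^ θ * side j ^ d) := by ring
      _ ≤ c * (B j m - β) * side j ^ n := mul_le_mul_of_nonneg_left h1 h2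
      _ = _ := by ring
  -- the case where one cube suffices
  have hone : ∀ (j : ℕ) (m : Fin n → ℤ) (a β : ℝ), β ≤ B j m →
      1 ≤ a + c * side j ^ θ * (B j m - β) →
      ∃ F : Finset (ℕ × (Fin n → ℤ)), (K ∩ cube j m ⊆ ⋃ q ∈ F, cube q.1 q.2) ∧
        (1 - a) * ∑ q ∈ F, side q.1 ^ d + c * side j ^ n * β ≤ c * I j m := by
    intro j m a β hβ h1
    refine ⟨{(j, m)}, ?_, ?_⟩
    · intro x hx
      exact Set.mem_iUnion₂.2 ⟨(j, m), Finset.mem_singleton_self _, hx.2⟩
    · rw [Finset.sum_singleton]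
      have h2 := hlam j m β hβ
      have h3 : (1 - a) * side j ^ d ≤ c * side j ^ θ * (B j m - β) * side j ^ d :=
        mul_le_mul_of_nonneg_right (by linarith) (side_rpow_pos j d).le
      have h4 : c * (side j ^ n * B j m) ≤ c * I j m := mul_le_mul_of_nonneg_left (hBI j m) hc
      simp only
      nlinarith
  have hempty : ∀ (j : ℕ) (m : Fin n → ℤ) (a β : ℝ), β ≤ B j m → K ∩ cube j m = ∅ →
      ∃ F : Finset (ℕ × (Fin n → ℤ)), (K ∩ cube j m ⊆ ⋃ q ∈ F, cube q.1 q.2) ∧
        (1 - a) * ∑ q ∈ F, side q.1 ^ d + c * side j ^ n * β ≤ c * I j m := by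
    intro j m a β hβ h1
    refine ⟨∅, ?_, ?_⟩
    · rw [h1]; exact Set.empty_subset _
    · rw [Finset.sum_empty, mul_zero, zero_add]
      have h2 : side j ^ n * β ≤ side j ^ n * B j m :=
        mul_le_mul_of_nonneg_left hβ (pow_pos (side_pos j) n).le
      have h4 : c * (side j ^ n * β) ≤ c * I j m :=
        mul_le_mul_of_nonneg_left (h2.trans (hBI j m)) hc
      linarith
  intro r
  induction r with
  | zero =>
    intro j m a β hβ h
    by_cases hK : K ∩ cube j m = ∅
    · exact hempty j m a β hβ hK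
    · obtain ⟨x, hx⟩ := Set.nonempty_iff_ne_empty.2 hK
      have h1 := h x hx.1 hx.2
      rw [Finset.sum_range_zero, add_zero] at h1
      exact hone j m a β hβ h1
  | succ r ih =>
    intro j m a β hβ h
    by_cases h1 : 1 ≤ a + c * side j ^ θ * (B j m - β)
    · exact hone j m a β hβ h1
    push Not at h1
    set a' : ℝ := a + c * side j ^ θ * (B j m - β) with ha'
    have hch : ∀ m' ∈ desc 1 m, ∃ F : Finset (ℕ × (Fin n → ℤ)),
        (K ∩ cube (j + 1) m' ⊆ ⋃ q ∈ F, cube q.1 q.2) ∧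
        (1 - a') * ∑ q ∈ F, side q.1 ^ d + c * side (j + 1) ^ n * B j m ≤ c * I (j + 1) m' := by
      intro m' hm'
      refine ih (j + 1) m' a' (B j m) (hBm j m m' hm') ?_
      intro x hxK hx
      have hx1 : cell (j + 1) x = m' := hx
      have hx0 : cell j x = m := by rw [hpar j x, hx1, par_desc m m' hm']
      have h2 := h x hxK hx0
      rw [Finset.sum_range_succ'] at h2
      simp only [add_zero] at h2
      rw [hx1, hx0] at h2
      have h3 : ∀ i ∈ Finset.range r, c * side (j + (i + 1) + 1) ^ θ *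
          (B (j + (i + 1) + 1) (cell (j + (i + 1) + 1) x) -
            B (j + (i + 1)) (cell (j + (i + 1)) x)) =
          c * side (j + 1 + i + 1) ^ θ *
          (B (j + 1 + i + 1) (cell (j + 1 + i + 1) x) - B (j + 1 + i) (cell (j + 1 + i) x)) := by
        intro i _
        have h4 : j + (i + 1) = j + 1 + i := by omega
        rw [h4]
      rw [Finset.sum_congr rfl h3] at h2
      linarith
    choose! Fm hFm1 hFm2 using hch
    set X : ℝ := ∑ m' ∈ desc 1 m, ∑ q ∈ Fm m', side q.1 ^ d with hX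
    have hkey : (1 - a') * X + c * side j ^ n * B j m ≤ c * I j m := by
      have h2 : ∑ m' ∈ desc 1 m, ((1 - a') * ∑ q ∈ Fm m', side q.1 ^ d +
          c * side (j + 1) ^ n * B j m) ≤ ∑ m' ∈ desc 1 m, c * I (j + 1) m' :=
        Finset.sum_le_sum fun m' hm' => hFm2 m' hm'
      rw [Finset.sum_add_distrib, ← Finset.mul_sum, Finset.sum_const, card_desc, nsmul_eq_mul,
        ← Finset.mul_sum] at h2
      have h3 : ((2 ^ n : ℕ) : ℝ) * (c * side (j + 1) ^ n * B j m) = c * side j ^ n * B j m := by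
        rw [side_succ, mul_pow]
        push_cast
        have : (2 : ℝ) ^ n * (1 / 2) ^ n = 1 := by rw [← mul_pow]; norm_num
        calc (2 : ℝ) ^ n * (c * ((1 / 2) ^ n * side j ^ n) * B j m)
            = (2 ^ n * (1 / 2) ^ n) * (c * side j ^ n * B j m) := by ring
          _ = _ := by rw [this, one_mul]
      rw [h3] at h2
      have h4 : c * ∑ m' ∈ desc 1 m, I (j + 1) m' ≤ c * I j m :=
        mul_le_mul_of_nonneg_left (hI j m) hc
      linarith
    have hfin : ∀ V : ℝ, V ≤ X → V ≤ side j ^ d →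
        (1 - a) * V + c * side j ^ n * β ≤ c * I j m := by
      intro V hV1 hV2
      have h2 : (1 - a) * V = (1 - a') * V + c * side j ^ θ * (B j m - β) * V := by
        rw [ha']; ring
      have h3 : (1 - a') * V ≤ (1 - a') * X := mul_le_mul_of_nonneg_left hV1 (by linarith)
      have h4 : 0 ≤ c * side j ^ θ * (B j m - β) :=
        mul_nonneg (mul_nonneg hc (side_rpow_pos j θ).le) (by linarith)
      have h5 : c * side j ^ θ * (B j m - β) * V ≤ c * side j ^ θ * (B j m - β) * side j ^ d :=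
        mul_le_mul_of_nonneg_left hV2 h4
      have h6 := hlam j m β hβ
      rw [h2]
      nlinarith
    by_cases hlX : side j ^ d ≤ X
    · refine ⟨{(j, m)}, ?_, ?_⟩
      · intro x hx
        exact Set.mem_iUnion₂.2 ⟨(j, m), Finset.mem_singleton_self _, hx.2⟩
      · rw [Finset.sum_singleton]
        exact hfin _ hlX (le_refl _)
    · push Not at hlX
      refine ⟨(desc 1 m).biUnion Fm, ?_, ?_⟩
      · intro x hx
        have hx0 : cell j x = m := hx.2
        have hm' := mem_desc j 1 m x hx0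
        have h2 : x ∈ ⋃ q ∈ Fm (cell (j + 1) x), cube q.1 q.2 := hFm1 _ hm' ⟨hx.1, rfl⟩
        obtain ⟨q, hq, hxq⟩ := Set.mem_iUnion₂.1 h2
        exact Set.mem_iUnion₂.2 ⟨q, Finset.mem_biUnion.2 ⟨_, hm', hq⟩, hxq⟩
      · have h2 := dg_sum_biUnion_le (desc 1 m) Fm (fun q => side q.1 ^ d)
          (fun q => (side_rpow_pos q.1 d).le)
        exact hfin _ h2 (h2.trans hlX.le)

/-- finitely many unit cubes cover a bounded set -/
theorem dg_unit {n : ℕ} (K : Set (E n)) (hK : Bornology.IsBounded K) :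
    ∃ U : Finset (Fin n → ℤ), ∀ x ∈ K, cell 0 x ∈ U := by
  obtain ⟨M, hM⟩ := isBounded_iff_forall_norm_le.1 hK
  refine ⟨Fintype.piFinset fun _ => Finset.Icc ⌊-M⌋ ⌊M⌋, ?_⟩
  intro x hx
  rw [Fintype.mem_piFinset]
  intro i
  have h1 : ‖x i‖ ≤ M := (PiLp.norm_apply_le x i).trans (hM x hx)
  rw [Real.norm_eq_abs, abs_le] at h1
  rw [Finset.mem_Icc]
  have h2 : (2 : ℝ) ^ 0 * x i = x i := by rw [pow_zero, one_mul]
  constructor
  · show _ ≤ ⌊(2 : ℝ) ^ 0 * x i⌋
    rw [h2]; exact Int.floor_le_floor h1.1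
  · show ⌊(2 : ℝ) ^ 0 * x i⌋ ≤ _
    rw [h2]; exact Int.floor_le_floor h1.2

/-- piece DG -/
theorem DG : S_DY → S_DG := by
  classical
  intro hDY n θ hn hθ
  obtain ⟨hpar, hmeas, hvol, hnest, hne, _⟩ := hDY n
  set q : ℝ := (1 / 2 : ℝ) ^ θ with hq
  have hq1 : q < 1 := Real.rpow_lt_one (by norm_num) (by norm_num) hθ
  have hq0 : 0 < q := Real.rpow_pos_of_pos (by norm_num) _
  set c : ℝ := 1 / (1 - q) with hcdef
  have hc : 0 < c := div_pos one_pos (by linarith)
  set d : ℝ := max ((n : ℝ) - θ) 0 with hddef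
  have hd : (n : ℝ) ≤ θ + d := by
    have := le_max_left ((n : ℝ) - θ) 0
    rw [hddef]; linarith
  refine ⟨ENNReal.ofReal c, ENNReal.ofReal_ne_top, ?_⟩
  intro g hg J K hK h
  obtain ⟨U, hU⟩ := dg_unit K hK
  by_cases htop : ∫⁻ x, g x = ⊤
  · refine ⟨U.image fun m => (0, m), ?_, ?_⟩
    · intro x hx
      exact Set.mem_iUnion₂.2 ⟨(0, cell 0 x), Finset.mem_image_of_mem _ (hU x hx), rfl⟩
    · rw [htop, ENNReal.mul_top (by rw [Ne, ENNReal.ofReal_eq_zero]; push Not; exact hc)]
      exact le_top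
  -- the finite case
  let b : ℕ → (Fin n → ℤ) → ℝ≥0∞ := fun j m => ⨅ y ∈ cube j m, g y
  have hbI : ∀ j m, ENNReal.ofReal (side j ^ n) * b j m ≤ ∫⁻ x in cube j m, g x := by
    intro j m
    calc ENNReal.ofReal (side j ^ n) * b j m = ∫⁻ _ in cube j m, b j m := by
          rw [setLIntegral_const, hvol, mul_comm]
      _ ≤ ∫⁻ x in cube j m, g x :=
          setLIntegral_mono' (hmeas j m) fun x hx => iInf₂_le x hx
  have hIfin : ∀ j m, ∫⁻ x in cube (n := n) j m, g x ≠ ⊤ := fun j m =>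
    ne_top_of_le_ne_top htop (setLIntegral_le_lintegral _ _)
  have hbfin : ∀ j m, b j m ≠ ⊤ := by
    intro j m hb
    have h1 := hbI j m
    rw [hb, ENNReal.mul_top (by
      rw [Ne, ENNReal.ofReal_eq_zero]; push Not; exact pow_pos (side_pos j) n), top_le_iff] at h1
    exact hIfin j m h1
  have hbm : ∀ j m m', m' ∈ desc 1 m → b j m ≤ b (j + 1) m' := by
    intro j m m' hm'
    refine le_iInf₂ fun y hy => iInf₂_le y ?_
    have h1 : cell (j + 1) y = m' := hy
    show cell j y = m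
    rw [hpar j y, h1, par_desc m m' hm']
  have hIs : ∀ j m, ∑ m' ∈ desc 1 m, ∫⁻ x in cube (n := n) (j + 1) m', g x ≤
      ∫⁻ x in cube j m, g x := by
    intro j m
    rw [← lintegral_biUnion_finset (t := fun m' => cube (n := n) (j + 1) m')]
    · refine lintegral_mono_set ?_
      intro x hx
      obtain ⟨m', hm', hx'⟩ := Set.mem_iUnion₂.1 hx
      have h1 : cell (j + 1) x = m' := hx'
      show cell j x = m
      rw [hpar j x, h1, par_desc m m' hm']
    · intro m1 _ m2 _ h12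
      rw [Function.onFun, Set.disjoint_left]
      intro x hx1 hx2
      exact h12 ((show cell (j + 1) x = m1 from hx1).symm.trans (show cell (j + 1) x = m2 from hx2))
    · intro m' _
      exact hmeas (j + 1) m'
  have hclaim := dg_claim hDY θ d c hd hc.le (fun j m => (b j m).toReal)
    (fun j m => (∫⁻ x in cube j m, g x).toReal)
    (fun j m m' hm' => ENNReal.toReal_mono (hbfin _ _) (hbm j m m' hm'))
    (fun j m => by
      have h1 := ENNReal.toReal_mono (hIfin j m) (hbI j m)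
      rwa [ENNReal.toReal_mul, ENNReal.toReal_ofReal (pow_pos (side_pos j) n).le] at h1)
    (fun j m => by
      have h1 := ENNReal.toReal_mono (hIfin j m) (hIs j m)
      rwa [ENNReal.toReal_sum (fun m' _ => hIfin (j + 1) m')] at h1) K J 0
  have hsq : ∀ i, side i ^ θ = q ^ i := by
    intro i
    unfold side
    rw [hq, ← Real.rpow_natCast, ← Real.rpow_natCast, ← Real.rpow_mul (by norm_num),
      ← Real.rpow_mul (by norm_num), mul_comm]
  have hex : ∀ m : Fin n → ℤ, ∃ F : Finset (ℕ × (Fin n → ℤ)),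
      (K ∩ cube 0 m ⊆ ⋃ q ∈ F, cube q.1 q.2) ∧
      (1 - 0) * ∑ q ∈ F, side q.1 ^ d + c * side 0 ^ n * 0 ≤
        c * (∫⁻ x in cube 0 m, g x).toReal := by
    intro m
    refine hclaim m 0 0 ENNReal.toReal_nonneg ?_
    intro x hxK hx
    have hx0 : cell 0 x = m := hx
    have h1 := h x hxK
    have h2 : 1 ≤ ∑ j ∈ Finset.range (J + 1), q ^ j * (b j (cell j x)).toReal := by
      have h3 := ENNReal.toReal_mono (ENNReal.sum_ne_top.2 fun j _ =>
        ENNReal.mul_ne_top ENNReal.ofReal_ne_top (hbfin j (cell j x))) h1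
      rw [ENNReal.toReal_one, ENNReal.toReal_sum (fun j _ =>
        ENNReal.mul_ne_top ENNReal.ofReal_ne_top (hbfin j (cell j x)))] at h3
      refine h3.trans (le_of_eq (Finset.sum_congr rfl fun j _ => ?_))
      rw [ENNReal.toReal_mul, ENNReal.toReal_ofReal (side_rpow_pos j θ).le, hsq]
    have h4 := dg_parts q (fun j => (b j (cell j x)).toReal) J
    have h5 : 0 ≤ q ^ (J + 1) * (b J (cell J x)).toReal :=
      mul_nonneg (pow_pos hq0 _).le ENNReal.toReal_nonneg
    have h6 : (1 - q) * 1 ≤ (1 - q) *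
        ∑ j ∈ Finset.range (J + 1), q ^ j * (b j (cell j x)).toReal :=
      mul_le_mul_of_nonneg_left h2 (by linarith)
    have h7 : 1 - q ≤ (b 0 (cell 0 x)).toReal + ∑ i ∈ Finset.range J,
        q ^ (i + 1) * ((b (i + 1) (cell (i + 1) x)).toReal - (b i (cell i x)).toReal) := by
      linarith
    have h8 : c * (1 - q) = 1 := by
      rw [hcdef]; field_simp [show (1 : ℝ) - q ≠ 0 by linarith]
    have h9 := mul_le_mul_of_nonneg_left h7 hc.le
    rw [h8, mul_add, Finset.mul_sum] at h9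
    have h10 : side 0 ^ θ = 1 := by rw [hsq, pow_zero]
    simp only [zero_add, sub_zero]
    rw [h10, mul_one, ← hx0]
    refine h9.trans (le_of_eq ?_)
    congr 1
    refine Finset.sum_congr rfl fun i _ => ?_
    rw [hsq]; ring
  choose Fm hFm1 hFm2 using hex
  refine ⟨U.biUnion Fm, ?_, ?_⟩
  · intro x hx
    have h2 : x ∈ ⋃ q ∈ Fm (cell 0 x), cube q.1 q.2 := hFm1 _ ⟨hx, rfl⟩
    obtain ⟨q', hq', hxq⟩ := Set.mem_iUnion₂.1 h2
    exact Set.mem_iUnion₂.2 ⟨q', Finset.mem_biUnion.2 ⟨_, hU x hx, hq'⟩, hxq⟩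
  · rw [← ENNReal.ofReal_sum_of_nonneg (fun i _ => (side_rpow_pos _ _).le)]
    have h1 := dg_sum_biUnion_le U Fm (fun q => side q.1 ^ d) (fun q => (side_rpow_pos q.1 d).le)
    have h2 : ∑ m ∈ U, ∑ q ∈ Fm m, side q.1 ^ d ≤
        ∑ m ∈ U, c * (∫⁻ x in cube 0 m, g x).toReal := by
      refine Finset.sum_le_sum fun m _ => ?_
      have := hFm2 m
      simpa using this
    have h3 : ∑ m ∈ U, ∫⁻ x in cube 0 m, g x ≤ ∫⁻ x, g x := by
      rw [← lintegral_biUnion_finset (t := fun m => cube (n := n) 0 m)]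
      · exact setLIntegral_le_lintegral _ _
      · intro m1 _ m2 _ h12
        rw [Function.onFun, Set.disjoint_left]
        intro x hx1 hx2
        exact h12 ((show cell 0 x = m1 from hx1).symm.trans (show cell 0 x = m2 from hx2))
      · intro m' _
        exact hmeas 0 m'
    have h4 : ∑ m ∈ U, (∫⁻ x in cube 0 m, g x).toReal ≤ (∫⁻ x, g x).toReal := by
      rw [← ENNReal.toReal_sum (fun m _ => hIfin 0 m)]
      exact ENNReal.toReal_mono htop h3
    rw [← Finset.mul_sum] at h2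
    have h5 : ∑ q ∈ U.biUnion Fm, side q.1 ^ d ≤ c * (∫⁻ x, g x).toReal :=
      h1.trans (h2.trans (mul_le_mul_of_nonneg_left h4 hc.le))
    calc ENNReal.ofReal (∑ q ∈ U.biUnion Fm, side q.1 ^ d)
        ≤ ENNReal.ofReal (c * (∫⁻ x, g x).toReal) := ENNReal.ofReal_le_ofReal h5
      _ = ENNReal.ofReal c * ∫⁻ x, g x := by
          rw [ENNReal.ofReal_mul hc.le, ENNReal.ofReal_toReal htop]

end Run7.h991.BC
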