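import Pool.Agent.Run7.h991.BC.Iface

/-!
# Piece DY: basic facts on dyadic cubes
-/

set_option autoImplicit false

open MeasureTheory FourierTransform SchwartzMap
open scoped ENNReal ContDiff

namespace Run7.h991.BC

theorem dy_par {n : ℕ} (j : ℕ) (x : E n) : cell j x = par (cell (j + 1) x) := by
  funext i
  unfold cell par
  have h := Int.floor_div_natCast ((2 : ℝ) ^ (j + 1) * x i) 2
  rw [show ((2 : ℕ) : ℤ) = 2 by rfl] at h
  rw [← h]
  congr 1
  push_cast
  rw [pow_succ]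
  ring

theorem dy_cell_meas {n : ℕ} (j : ℕ) : Measurable (cell (n := n) j) := by
  refine measurable_pi_lambda _ fun i => ?_
  unfold cell
  refine Int.measurable_floor.comp ?_
  refine Measurable.const_mul ?_ _
  exact (EuclideanSpace.proj (𝕜 := ℝ) i).continuous.measurable

theorem dy_meas {n : ℕ} (j : ℕ) (m : Fin n → ℤ) : MeasurableSet (cube j m) :=
  dy_cell_meas j (measurableSet_singleton m)

theorem dy_mem {n : ℕ} (j : ℕ) (m : Fin n → ℤ) (x : E n) :
    x ∈ cube j m ↔ ∀ i, x i ∈ Set.Ico ((1 / 2 : ℝ) ^ j * m i) ((1 / 2 : ℝ) ^ j * (m i + 1)) := by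
  have h2 : (0 : ℝ) < 2 ^ j := by positivity
  have hh : (1 / 2 : ℝ) ^ j = ((2 : ℝ) ^ j)⁻¹ := by rw [one_div, inv_pow]
  constructor
  · intro hx i
    have h : ⌊(2 : ℝ) ^ j * x i⌋ = m i := congrFun hx i
    rw [Int.floor_eq_iff] at h
    rw [hh]
    constructor
    · rw [inv_mul_le_iff₀ h2]; exact h.1
    · rw [lt_inv_mul_iff₀ h2]; exact h.2
  · intro h
    funext i
    show ⌊(2 : ℝ) ^ j * x i⌋ = m i
    rw [Int.floor_eq_iff]
    have h1 := h i
    rw [hh] at h1
    constructor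
    · have := h1.1
      rwa [inv_mul_le_iff₀ h2] at this
    · have := h1.2
      rwa [lt_inv_mul_iff₀ h2] at this

theorem dy_vol {n : ℕ} (j : ℕ) (m : Fin n → ℤ) :
    volume (cube j m) = ENNReal.ofReal (side j ^ n) := by
  have hs : cube j m = (@WithLp.ofLp 2 (Fin n → ℝ)) ⁻¹'
      (Set.univ.pi fun i => Set.Ico ((1 / 2 : ℝ) ^ j * m i) ((1 / 2 : ℝ) ^ j * (m i + 1))) := by
    ext x
    rw [dy_mem]
    simp only [Set.mem_preimage, Set.mem_pi, Set.mem_univ, forall_true_left]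
  rw [hs, (PiLp.volume_preserving_ofLp (Fin n)).measure_preimage
    (MeasurableSet.univ_pi fun i => measurableSet_Ico).nullMeasurableSet, Real.volume_pi_Ico]
  rw [← ENNReal.ofReal_prod_of_nonneg]
  · congr 1
    rw [Finset.prod_congr rfl (fun i _ => show (1 / 2 : ℝ) ^ j * (m i + 1) - (1 / 2 : ℝ) ^ j * m i
      = side j by unfold side; ring)]
    simp
  · intro i _
    have : (1 / 2 : ℝ) ^ j * (m i + 1) - (1 / 2 : ℝ) ^ j * m i = (1 / 2 : ℝ) ^ j := by ring
    rw [this]; positivity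

theorem dy_cell_of_eq {n : ℕ} (j k : ℕ) (x y : E n) (h : cell (j + k) x = cell (j + k) y) :
    cell j x = cell j y := by
  induction k with
  | zero => exact h
  | succ k ih =>
    apply ih
    rw [dy_par (j + k) x, dy_par (j + k) y]
    rw [show j + (k + 1) = j + k + 1 by ring] at h
    rw [h]

theorem dy_nest {n : ℕ} (j j' : ℕ) (m m' : Fin n → ℤ) (hj : j ≤ j') :
    cube j' m' ⊆ cube j m ∨ Disjoint (cube j' m') (cube j m) := by
  obtain ⟨k, rfl⟩ := Nat.exists_eq_add_of_le hj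
  by_cases h : ∃ x, x ∈ cube (j + k) m' ∧ x ∈ cube j m
  · left
    obtain ⟨x, hx1, hx2⟩ := h
    intro y hy
    have : cell (j + k) y = cell (j + k) x := by
      rw [show cell (j + k) y = m' from hy, show cell (j + k) x = m' from hx1]
    have h2 := dy_cell_of_eq j k y x this
    show cell j y = m
    rw [h2]; exact hx2
  · right
    rw [Set.disjoint_left]
    intro x hx1 hx2
    exact h ⟨x, hx1, hx2⟩

theorem dy_nonempty {n : ℕ} (j : ℕ) (m : Fin n → ℤ) : (cube j m).Nonempty := by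
  refine ⟨WithLp.toLp 2 fun i => (1 / 2 : ℝ) ^ j * m i, ?_⟩
  rw [dy_mem]
  intro i
  have : (0 : ℝ) < (1 / 2 : ℝ) ^ j := by positivity
  constructor
  · exact le_refl _
  · show (1 / 2 : ℝ) ^ j * m i < (1 / 2 : ℝ) ^ j * (m i + 1)
    nlinarith

theorem dy_diam {n : ℕ} (j : ℕ) (x y : E n) (h : cell j x = cell j y) :
    ‖x - y‖ ≤ Real.sqrt n * (2 : ℝ) ^ (-(j : ℤ)) := by
  have hx := (dy_mem j (cell j x) x).1 rfl
  have hy := (dy_mem j (cell j x) y).1 h.symm
  have hp : (0 : ℝ) ≤ (2 : ℝ) ^ (-(j : ℤ)) := by positivity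
  have hq : (2 : ℝ) ^ (-(j : ℤ)) = (1 / 2 : ℝ) ^ j := by
    rw [zpow_neg, zpow_natCast, one_div, inv_pow]
  rw [EuclideanSpace.norm_eq]
  rw [show Real.sqrt n * (2 : ℝ) ^ (-(j : ℤ)) = Real.sqrt (n * ((2 : ℝ) ^ (-(j : ℤ))) ^ 2) by
    rw [Real.sqrt_mul (Nat.cast_nonneg n), Real.sqrt_sq hp]]
  apply Real.sqrt_le_sqrt
  calc ∑ i : Fin n, ‖(x - y) i‖ ^ 2 ≤ ∑ i : Fin n, ((2 : ℝ) ^ (-(j : ℤ))) ^ 2 := by
        refine Finset.sum_le_sum fun i _ => ?_
        have h1 := hx i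
        have h2 := hy i
        refine pow_le_pow_left₀ (norm_nonneg _) ?_ 2
        rw [hq, Real.norm_eq_abs]
        have h3 : (x - y) i = x i - y i := rfl
        rw [h3, abs_le]
        constructor
        · nlinarith [h1.1, h1.2, h2.1, h2.2]
        · nlinarith [h1.1, h1.2, h2.1, h2.2]
    _ = n * ((2 : ℝ) ^ (-(j : ℤ))) ^ 2 := by simp

/-- piece DY -/
theorem DY : S_DY := fun n =>
  ⟨fun j x => dy_par j x, fun j m => dy_meas j m, fun j m => dy_vol j m,
    fun j j' m m' h => dy_nest j j' m m' h, fun j m => dy_nonempty j m, fun j x y h => dy_diam j x y h⟩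

end Run7.h991.BC
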