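import Pool.Agent.Run7.h991.BC.Stm

/-!
# MP_9b3711_an: auxiliary definitions of the proof
-/

set_option autoImplicit false

open MeasureTheory FourierTransform SchwartzMap
open scoped ENNReal ContDiff

namespace Run7.h991.BC

/-- index of the dyadic cube of side `2 ^ (-j)` which contains `x` -/
noncomputable def cell {n : ℕ} (j : ℕ) (x : E n) : Fin n → ℤ := fun i => ⌊(2 : ℝ) ^ j * x i⌋

/-- the dyadic cube of side `2 ^ (-j)` with index `m` (half open) -/
def cube {n : ℕ} (j : ℕ) (m : Fin n → ℤ) : Set (E n) := {x | cell j x = m}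

/-- index of the parent -/
def par {n : ℕ} (m : Fin n → ℤ) : Fin n → ℤ := fun i => m i / 2

/-- side length of a cube of generation `j` -/
noncomputable def side (j : ℕ) : ℝ := (1 / 2 : ℝ) ^ j

/-- the kernel `(1 + |w|) ^ (-L)` -/
noncomputable def kap {n : ℕ} (L : ℝ) (w : E n) : ℝ := (1 + ‖w‖) ^ (-L)

/-- the averaging operator `T_j f (x) = ∫ f (x - 2 ^ (-j) w) (1 + |w|) ^ (-L) dw` -/
noncomputable def T {n : ℕ} (L : ℝ) (j : ℤ) (f : E n → ℝ≥0∞) (x : E n) : ℝ≥0∞ :=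
  ∫⁻ w, f (x - (2 : ℝ) ^ (-j) • w) * ENNReal.ofReal (kap L w)

/-- the (unit scale) atom with pole `z`, nodes `l` and weights `w`:
`β - ∑ k, w k * (l k) ^ (-n) * β (z + (· - z) / l k)` -/
noncomputable def atm {n M : ℕ} (β : E n → ℝ) (l w : Fin M → ℝ) (z : E n) (x : E n) : ℝ :=
  β x - ∑ k, w k * ((l k)⁻¹) ^ n * β (z + (l k)⁻¹ • (x - z))

end Run7.h991.BC
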