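import Pool.Agent.Run7.h991.BC.PT

/-!
# MP_9b3711_an: piece HF (helper136)
-/

set_option autoImplicit false

open MeasureTheory FourierTransform SchwartzMap
open scoped ENNReal ContDiff

namespace Run7.h991.BC

namespace HFaux

open PTaux

variable {n : ℕ}

/-- decay of Schwartz functions -/
lemma dec {F : Type} [NormedAddCommGroup F] [NormedSpace ℝ F] (f : 𝓢(E n, F)) (L : ℕ) :
    ∃ C : ℝ, 0 ≤ C ∧ ∀ x, (1 + ‖x‖) ^ L * ‖f x‖ ≤ C := by
  refine ⟨2 ^ L * (Finset.Iic (L, 0)).sup (fun m => SchwartzMap.seminorm ℝ m.1 m.2) f,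
    by positivity, fun x => ?_⟩
  have := SchwartzMap.one_add_le_sup_seminorm_apply (𝕜 := ℝ) (m := (L, 0)) (k := L) (n := 0)
    le_rfl le_rfl f x
  simpa only [norm_iteratedFDeriv_zero] using this

lemma integrable_japanese {r : ℝ} (hr : (n : ℝ) < r) :
    Integrable (fun x : E n => (1 + ‖x‖) ^ (-r)) :=
  integrable_one_add_norm (by simpa using hr)

lemma lintegral_japanese {r : ℝ} (hr : (n : ℝ) < r) :
    ∫⁻ x : E n, ENNReal.ofReal ((1 + ‖x‖) ^ (-r)) ≠ ⊤ :=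
  (finite_integral_one_add_norm (by simpa using hr)).ne

lemma int_dec {F : Type} [NormedAddCommGroup F] [NormedSpace ℝ F] (f : 𝓢(E n, F)) (L : ℕ) :
    Integrable (fun y : E n => (1 + ‖y‖) ^ L * ‖f y‖) := by
  obtain ⟨C, hC0, hC⟩ := dec f (L + (n + 1))
  have hI := integrable_japanese (n := n) (r := (n : ℝ) + 1) (by linarith)
  refine (hI.const_mul C).mono' ?_ ?_
  · have : Continuous fun y : E n => (1 + ‖y‖) ^ L * ‖f y‖ :=
      ((continuous_const.add continuous_norm).pow L).mul f.continuous.norm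
    exact this.aestronglyMeasurable
  · refine Filter.Eventually.of_forall fun y => ?_
    have h1 : (0 : ℝ) < 1 + ‖y‖ := by positivity
    rw [Real.norm_of_nonneg (by positivity)]
    have h2 : (1 + ‖y‖) ^ (-((n : ℝ) + 1)) = ((1 + ‖y‖) ^ (n + 1))⁻¹ := by
      rw [Real.rpow_neg h1.le]
      congr 1
      have : ((n : ℝ) + 1) = ((n + 1 : ℕ) : ℝ) := by push_cast; ring
      rw [this, Real.rpow_natCast]
    rw [h2, ← div_eq_mul_inv, le_div_iff₀ (by positivity)]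
    have := hC y
    rw [pow_add] at this
    nlinarith [this]

lemma one_add_mul (x y : E n) (t : ℝ) (ht0 : 0 ≤ t) (ht : t ≤ 1) :
    1 + ‖x‖ ≤ (1 + ‖x - t • y‖) * (1 + ‖y‖) := by
  have h1 : ‖x‖ ≤ ‖x - t • y‖ + ‖t • y‖ := by
    calc ‖x‖ = ‖(x - t • y) + t • y‖ := by rw [sub_add_cancel]
      _ ≤ _ := norm_add_le _ _
  have h2 : ‖t • y‖ ≤ ‖y‖ := by
    rw [norm_smul, Real.norm_of_nonneg ht0]
    exact mul_le_of_le_one_left (norm_nonneg _) ht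
  nlinarith [norm_nonneg (x - t • y), norm_nonneg y]

lemma zpow_nat_le_one (i : ℕ) : (0 : ℝ) ≤ (2 : ℝ) ^ (-(i : ℤ)) ∧ (2 : ℝ) ^ (-(i : ℤ)) ≤ 1 := by
  constructor
  · positivity
  · rw [zpow_neg, zpow_natCast]
    exact inv_le_one_of_one_le₀ (one_le_pow₀ (by norm_num))

/-- decay of `S_i u`, uniform in `i ≥ 0` -/
lemma S_decay (Φ : 𝓢(E n, ℂ)) (u : 𝓢(E n, ℝ)) (L : ℕ) : ∃ C : ℝ, 0 ≤ C ∧
    ∀ (i : ℕ) (x : E n), (1 + ‖x‖) ^ L * ‖S Φ (i : ℤ) (cx u) x‖ ≤ C := by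
  obtain ⟨Cu, hCu0, hCu⟩ := dec u L
  have hI := int_dec Φ L
  refine ⟨(∫ y, (1 + ‖y‖) ^ L * ‖Φ y‖) * Cu, ?_, ?_⟩
  · exact mul_nonneg (integral_nonneg fun y => by positivity) hCu0
  · intro i x
    have hx : (0 : ℝ) < (1 + ‖x‖) ^ L := by positivity
    rw [mul_comm, ← le_div_iff₀ hx]
    have : (∫ y, (1 + ‖y‖) ^ L * ‖Φ y‖) * Cu / (1 + ‖x‖) ^ L =
        ∫ y, (1 + ‖y‖) ^ L * ‖Φ y‖ * (Cu / (1 + ‖x‖) ^ L) := by
      rw [integral_mul_const]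
      ring
    rw [this]
    unfold S
    refine norm_integral_le_of_norm_le (hI.mul_const _) ?_
    refine Filter.Eventually.of_forall fun y => ?_
    rw [norm_mul]
    have h1 : ‖cx u (x - (2 : ℝ) ^ (-(i : ℤ)) • y)‖ = ‖u (x - (2 : ℝ) ^ (-(i : ℤ)) • y)‖ := by
      simp [cx]
    rw [h1]
    obtain ⟨ht0, ht1⟩ := zpow_nat_le_one i
    have h2 := one_add_mul x y _ ht0 ht1
    have h3 := hCu (x - (2 : ℝ) ^ (-(i : ℤ)) • y)
    set z := x - (2 : ℝ) ^ (-(i : ℤ)) • y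
    have h4 : (1 + ‖x‖) ^ L ≤ (1 + ‖z‖) ^ L * (1 + ‖y‖) ^ L := by
      rw [← mul_pow]
      exact pow_le_pow_left₀ (by positivity) h2 L
    have h5 : ‖u z‖ ≤ (1 + ‖y‖) ^ L * (Cu / (1 + ‖x‖) ^ L) := by
      rw [← mul_div_assoc, le_div_iff₀ hx]
      calc ‖u z‖ * (1 + ‖x‖) ^ L ≤ ‖u z‖ * ((1 + ‖z‖) ^ L * (1 + ‖y‖) ^ L) :=
            mul_le_mul_of_nonneg_left h4 (norm_nonneg _)
        _ = (1 + ‖y‖) ^ L * ((1 + ‖z‖) ^ L * ‖u z‖) := by ring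
        _ ≤ (1 + ‖y‖) ^ L * Cu := mul_le_mul_of_nonneg_left h3 (by positivity)
    calc ‖Φ y‖ * ‖u z‖ ≤ ‖Φ y‖ * ((1 + ‖y‖) ^ L * (Cu / (1 + ‖x‖) ^ L)) :=
          mul_le_mul_of_nonneg_left h5 (norm_nonneg _)
      _ = _ := by ring

/-- integration of a decaying function -/
lemma lint_le {p : ℝ} (hp : 0 < p) (f : E n → ℂ) (A : ℝ) (hA : 0 ≤ A) (L : ℕ)
    (hf : ∀ x, (1 + ‖x‖) ^ L * ‖f x‖ ≤ A) :
    ∫⁻ x, ‖f x‖ₑ ^ p ≤
      ENNReal.ofReal (A ^ p) * ∫⁻ x : E n, ENNReal.ofReal ((1 + ‖x‖) ^ (-((L : ℝ) * p))) := by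
  have hm : Measurable fun x : E n => ENNReal.ofReal ((1 + ‖x‖) ^ (-((L : ℝ) * p))) := by
    fun_prop
  rw [← lintegral_const_mul _ hm]
  refine lintegral_mono fun x => ?_
  have h1 : (0 : ℝ) < 1 + ‖x‖ := by positivity
  rw [← ofReal_norm, ENNReal.ofReal_rpow_of_nonneg (norm_nonneg _) hp.le,
    ← ENNReal.ofReal_mul (Real.rpow_nonneg hA _)]
  refine ENNReal.ofReal_le_ofReal ?_
  have h2 : ‖f x‖ ≤ A * (1 + ‖x‖) ^ (-(L : ℝ)) := by
    rw [Real.rpow_neg h1.le, Real.rpow_natCast, ← div_eq_mul_inv, le_div_iff₀ (by positivity)]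
    linarith [hf x]
  calc ‖f x‖ ^ p ≤ (A * (1 + ‖x‖) ^ (-(L : ℝ))) ^ p :=
        Real.rpow_le_rpow (norm_nonneg _) h2 hp.le
    _ = A ^ p * (1 + ‖x‖) ^ (-((L : ℝ) * p)) := by
        rw [Real.mul_rpow hA (Real.rpow_nonneg h1.le _), ← Real.rpow_mul h1.le]
        congr 2
        ring

end HFaux

open PTaux HFaux

theorem HF : S_RP → S_HF := by
  intro hRP n Φ hn hΦ α p hα hp hp1 u
  obtain ⟨-, -, hc⟩ := hRP n Φ hΦ u
  obtain ⟨L, hL⟩ := exists_nat_gt ((n : ℝ) / p)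
  obtain ⟨N, hN⟩ := exists_nat_gt α
  have hLp : (n : ℝ) < L * p := by rwa [div_lt_iff₀ hp] at hL
  obtain ⟨C1, hC1⟩ := hc (2 * N)
  obtain ⟨C2, hC20, hC2⟩ := S_decay Φ u (2 * L)
  obtain ⟨C3, hC30, hC3⟩ := S_decay Φ u L
  have hC10 : 0 ≤ C1 := by
    have := (norm_nonneg _).trans (hC1 0 0)
    simpa using this
  set I : ℝ≥0∞ := ∫⁻ x : E n, ENNReal.ofReal ((1 + ‖x‖) ^ (-((L : ℝ) * p))) with hI
  have hIt : I ≠ ⊤ := lintegral_japanese hLp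
  set A : ℝ := Real.sqrt (4 * C1 * C2) with hA
  -- the differences
  have hdiff : ∀ (j : ℕ) (x : E n), (1 + ‖x‖) ^ L * ‖blk Φ (j + 1) (cx u) x‖ ≤
      A * (1 / 2) ^ (j * N) := by
    intro j x
    have e1 : blk Φ (j + 1) (cx u) x = S Φ ((j : ℤ) + 1) (cx u) x - S Φ (j : ℤ) (cx u) x := rfl
    have hcast : ((j : ℤ) + 1) = ((j + 1 : ℕ) : ℤ) := by push_cast; ring
    set D := blk Φ (j + 1) (cx u) x with hD
    have b1 : ‖D‖ ≤ 2 * C1 * (1 / 2) ^ (j * (2 * N)) := by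
      have h1 := hC1 (j + 1) x
      have h2 := hC1 j x
      rw [e1, hcast]
      have h3 : S Φ ((j + 1 : ℕ) : ℤ) (cx u) x - S Φ (j : ℤ) (cx u) x =
          (S Φ ((j + 1 : ℕ) : ℤ) (cx u) x - cx u x) - (S Φ (j : ℤ) (cx u) x - cx u x) := by ring
      rw [h3]
      have h4 : (1 / 2 : ℝ) ^ ((j + 1) * (2 * N)) ≤ (1 / 2) ^ (j * (2 * N)) :=
        pow_le_pow_of_le_one (by norm_num) (by norm_num) (Nat.mul_le_mul_right _ (Nat.le_succ j))
      have h5 := norm_sub_le (S Φ ((j + 1 : ℕ) : ℤ) (cx u) x - cx u x)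
        (S Φ (j : ℤ) (cx u) x - cx u x)
      have h6 : C1 * (1 / 2 : ℝ) ^ ((j + 1) * (2 * N)) ≤ C1 * (1 / 2) ^ (j * (2 * N)) :=
        mul_le_mul_of_nonneg_left h4 hC10
      linarith
    have b2 : (1 + ‖x‖) ^ (2 * L) * ‖D‖ ≤ 2 * C2 := by
      have h1 := hC2 (j + 1) x
      have h2 := hC2 j x
      rw [e1, hcast]
      have h5 := norm_sub_le (S Φ ((j + 1 : ℕ) : ℤ) (cx u) x) (S Φ (j : ℤ) (cx u) x)
      have h6 := mul_le_mul_of_nonneg_left h5 (by positivity : (0 : ℝ) ≤ (1 + ‖x‖) ^ (2 * L))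
      rw [mul_add] at h6
      linarith
    have hsq : ((1 + ‖x‖) ^ L * ‖D‖) ^ 2 ≤ (A * (1 / 2) ^ (j * N)) ^ 2 := by
      have e2 : ((1 + ‖x‖) ^ L * ‖D‖) ^ 2 = ((1 + ‖x‖) ^ (2 * L) * ‖D‖) * ‖D‖ := by
        rw [mul_pow, ← pow_mul, mul_comm L 2]
        ring
      have e3 : (A * (1 / 2 : ℝ) ^ (j * N)) ^ 2 = (2 * C2) * (2 * C1 * (1 / 2) ^ (j * (2 * N))) := by
        rw [mul_pow, hA, Real.sq_sqrt (by positivity), ← pow_mul]
        have : j * N * 2 = j * (2 * N) := by ring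
        rw [this]
        ring
      rw [e2, e3]
      exact mul_le_mul b2 b1 (norm_nonneg _) (by positivity)
    exact (pow_le_pow_iff_left₀ (by positivity) (by positivity) (by norm_num)).1 hsq
  -- the sum
  unfold besov
  rw [tsum_eq_zero_add' ENNReal.summable]
  refine ENNReal.add_ne_top.2 ⟨?_, ?_⟩
  · refine ENNReal.mul_ne_top ENNReal.ofReal_ne_top ?_
    have h0 : ∀ x, (1 + ‖x‖) ^ L * ‖blk Φ 0 (cx u) x‖ ≤ C3 := fun x => hC3 0 x
    exact ((lint_le hp _ C3 hC30 L h0).trans_lt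
      (ENNReal.mul_lt_top ENNReal.ofReal_lt_top hIt.lt_top)).ne
  · set ρ : ℝ := (2 : ℝ) ^ ((α - N) * p) with hρ
    have hρ0 : 0 < ρ := Real.rpow_pos_of_pos (by norm_num) _
    have hρ1 : ρ < 1 := by
      refine Real.rpow_lt_one_of_one_lt_of_neg (by norm_num) ?_
      have : α - N < 0 := by linarith
      nlinarith
    set K : ℝ := (2 : ℝ) ^ (α * p) * A ^ p with hK
    have hA0 : 0 ≤ A := Real.sqrt_nonneg _
    have hterm : ∀ j : ℕ, ENNReal.ofReal ((2 : ℝ) ^ (((j + 1 : ℕ) : ℝ) * α * p)) *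
        ∫⁻ x, ‖blk Φ (j + 1) (cx u) x‖ₑ ^ p ≤ ENNReal.ofReal (K * ρ ^ j) * I := by
      intro j
      have h1 := lint_le hp (blk Φ (j + 1) (cx u)) (A * (1 / 2) ^ (j * N)) (by positivity) L
        (hdiff j)
      refine (mul_le_mul_right h1 _).trans (le_of_eq ?_)
      rw [← hI, ← mul_assoc, ← ENNReal.ofReal_mul (by positivity)]
      congr 2
      rw [Real.mul_rpow hA0 (by positivity)]
      have e1 : ((1 / 2 : ℝ) ^ (j * N)) ^ p = (2 : ℝ) ^ (-((j : ℝ) * N * p)) := by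
        rw [one_div, inv_pow, ← Real.rpow_natCast 2 (j * N), ← Real.rpow_neg (by norm_num),
          ← Real.rpow_mul (by norm_num)]
        congr 1
        push_cast
        ring
      have e2 : ρ ^ j = (2 : ℝ) ^ ((α - N) * p * j) := by
        rw [hρ, ← Real.rpow_natCast, ← Real.rpow_mul (by norm_num)]
      rw [e1, e2, hK]
      have e3 : (2 : ℝ) ^ (((j + 1 : ℕ) : ℝ) * α * p) * (2 : ℝ) ^ (-((j : ℝ) * N * p)) =
          (2 : ℝ) ^ (α * p) * (2 : ℝ) ^ ((α - N) * p * j) := by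
        rw [← Real.rpow_add (by norm_num), ← Real.rpow_add (by norm_num)]
        congr 1
        push_cast
        ring
      calc (2 : ℝ) ^ (((j + 1 : ℕ) : ℝ) * α * p) * (A ^ p * (2 : ℝ) ^ (-((j : ℝ) * N * p)))
          = ((2 : ℝ) ^ (((j + 1 : ℕ) : ℝ) * α * p) * (2 : ℝ) ^ (-((j : ℝ) * N * p))) * A ^ p := by
            ring
        _ = _ := by rw [e3]; ring
    refine ((ENNReal.tsum_le_tsum hterm).trans_lt ?_).ne
    rw [ENNReal.tsum_mul_right]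
    refine ENNReal.mul_lt_top ?_ hIt.lt_top
    exact (((summable_geometric_of_lt_one hρ0.le hρ1).mul_left K).tsum_ofReal_ne_top).lt_top

end Run7.h991.BC
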