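import Pool.Agent.Run7.h991.BC.Iface

set_option autoImplicit false

open MeasureTheory FourierTransform SchwartzMap Set
open scoped ENNReal ContDiff

namespace Run7.h991.BC

/-- extrapolation error in dimension one -/
theorem LF1 {M : ℕ} (hM : 1 ≤ M) (l w : Fin M → ℝ) (hl : ∀ k, 0 < l k ∧ l k ≤ 1)
    (hw : ∀ i < M, ∑ k, w k * l k ^ i = 1) (q : ℝ → ℂ) (hq : ContDiff ℝ M q) (B : ℝ)
    (hB : ∀ s ∈ Icc (0 : ℝ) 1, ‖iteratedDeriv M q s‖ ≤ B) :
    ‖q 1 - ∑ k, (w k : ℂ) * q (l k)‖ ≤ (1 + ∑ k, |w k|) * B := by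
  obtain ⟨m, rfl⟩ : ∃ m, M = m + 1 := ⟨M - 1, by omega⟩
  have hB0 : 0 ≤ B := (norm_nonneg _).trans (hB 0 ⟨le_rfl, zero_le_one⟩)
  set P : ℝ → ℂ := fun x => taylorWithinEval q m (Icc 0 1) 0 x with hP
  have hrem : ∀ x ∈ Icc (0 : ℝ) 1, ‖q x - P x‖ ≤ B := by
    intro x hx
    have h := taylor_mean_remainder_bound (f := q) (a := 0) (b := 1) (C := B) (x := x) (n := m)
      zero_le_one (by exact_mod_cast hq.contDiffOn) hx (by
        intro y hy
        rw [iteratedDerivWithin_eq_iteratedDeriv (uniqueDiffOn_Icc zero_lt_one)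
          (by exact_mod_cast hq.contDiffAt) hy]
        exact hB y hy)
    refine h.trans ?_
    rw [sub_zero]
    have h1 : x ^ (m + 1) ≤ 1 := pow_le_one₀ hx.1 hx.2
    have h2 : (1 : ℝ) ≤ (Nat.factorial m : ℝ) := by exact_mod_cast Nat.one_le_iff_ne_zero.2 (Nat.factorial_ne_zero m)
    calc B * x ^ (m + 1) / (Nat.factorial m : ℝ) ≤ B * x ^ (m + 1) / 1 := by
          apply div_le_div_of_nonneg_left _ one_pos h2
          exact mul_nonneg hB0 (pow_nonneg hx.1 _)
      _ ≤ B := by rw [div_one]; exact mul_le_of_le_one_right hB0 h1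
  have hPe : P 1 - ∑ k, (w k : ℂ) * P (l k) = 0 := by
    simp only [hP, taylor_within_apply, sub_zero, one_pow, mul_one, Complex.real_smul]
    simp_rw [Finset.mul_sum]
    rw [Finset.sum_comm, ← Finset.sum_sub_distrib]
    apply Finset.sum_eq_zero
    intro i hi
    have hi' : i < m + 1 := Finset.mem_range.1 hi
    have := hw i hi'
    have e : ∑ k, (w k : ℂ) * ((((Nat.factorial i : ℝ)⁻¹ * l k ^ i : ℝ) : ℂ) * iteratedDerivWithin i q (Icc 0 1) 0)
        = ((∑ k, w k * l k ^ i : ℝ) : ℂ) * ((((Nat.factorial i : ℝ)⁻¹ : ℝ) : ℂ) * iteratedDerivWithin i q (Icc 0 1) 0) := by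
      push_cast
      rw [Finset.sum_mul]
      apply Finset.sum_congr rfl
      intro k _
      ring
    rw [e, this]
    simp
  have key : q 1 - ∑ k, (w k : ℂ) * q (l k) = (q 1 - P 1) - ∑ k, (w k : ℂ) * (q (l k) - P (l k)) := by
    have : ∑ k, (w k : ℂ) * (q (l k) - P (l k)) = ∑ k, (w k : ℂ) * q (l k) - ∑ k, (w k : ℂ) * P (l k) := by
      rw [← Finset.sum_sub_distrib]
      exact Finset.sum_congr rfl fun k _ => by ring
    rw [this]
    linear_combination hPe
  rw [key]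
  refine (norm_sub_le _ _).trans ?_
  have h1 := hrem 1 ⟨zero_le_one, le_rfl⟩
  have h2 : ‖∑ k, (w k : ℂ) * (q (l k) - P (l k))‖ ≤ ∑ k, |w k| * B := by
    refine (norm_sum_le _ _).trans (Finset.sum_le_sum fun k _ => ?_)
    rw [norm_mul, Complex.norm_real, Real.norm_eq_abs]
    exact mul_le_mul_of_nonneg_left (hrem _ ⟨(hl k).1.le, (hl k).2⟩) (abs_nonneg _)
  rw [← Finset.sum_mul] at h2
  nlinarith [h1, h2]

/-- iterated derivative along a line -/
theorem LF2 {n : ℕ} (Φ : 𝓢(E n, ℂ)) (M : ℕ) (A D : E n) (s : ℝ) :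
    ‖iteratedDeriv M (fun s : ℝ => Φ (A + s • D)) s‖ ≤
      ‖iteratedFDeriv ℝ M Φ (A + s • D)‖ * ‖D‖ ^ M := by
  rw [← norm_iteratedFDeriv_eq_norm_iteratedDeriv]
  have e : (fun s : ℝ => Φ (A + s • D)) =
      (fun y : E n => Φ (A + y)) ∘ (ContinuousLinearMap.toSpanSingleton ℝ D) := by
    ext s
    simp [ContinuousLinearMap.toSpanSingleton_apply]
  have hc : ContDiff ℝ M (fun y : E n => Φ (A + y)) :=
    (Φ.smooth M).comp (contDiff_const.add contDiff_id)
  rw [e, ContinuousLinearMap.iteratedFDeriv_comp_right _ hc _ le_rfl]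
  refine (ContinuousMultilinearMap.norm_compContinuousLinearMap_le _ _).trans ?_
  rw [iteratedFDeriv_comp_add_left]
  simp [ContinuousLinearMap.toSpanSingleton_apply]

/-- Schwartz decay with real exponent -/
theorem LF_decay {n : ℕ} (Φ : 𝓢(E n, ℂ)) (M : ℕ) (L : ℝ) :
    ∃ C : ℝ, 0 ≤ C ∧ ∀ x, ‖iteratedFDeriv ℝ M Φ x‖ ≤ C * (1 + ‖x‖) ^ (-L) := by
  set k := ⌈L⌉₊
  set C := 2 ^ k * (Finset.Iic (k, M)).sup (fun m => SchwartzMap.seminorm ℝ m.1 m.2) Φ
  have h := fun x => SchwartzMap.one_add_le_sup_seminorm_apply (𝕜 := ℝ) (m := (k, M)) (k := k) (n := M)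
    le_rfl le_rfl Φ x
  have hC : 0 ≤ C := le_trans (by positivity) (h 0)
  refine ⟨C, hC, fun x => ?_⟩
  have h1 : (1 : ℝ) ≤ 1 + ‖x‖ := by linarith [norm_nonneg x]
  have hp : 0 < (1 + ‖x‖) ^ k := by positivity
  have h2 : ‖iteratedFDeriv ℝ M Φ x‖ ≤ C * ((1 + ‖x‖) ^ k)⁻¹ := by
    rw [← div_eq_mul_inv, le_div_iff₀ hp, mul_comm]
    exact h x
  refine h2.trans (mul_le_mul_of_nonneg_left ?_ hC)
  rw [← Real.rpow_natCast, ← Real.rpow_neg (by linarith)]
  exact Real.rpow_le_rpow_of_exponent_le h1 (neg_le_neg (Nat.le_ceil L))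

/-- change of variables in one term -/
theorem LF3 {n : ℕ} (Φ : 𝓢(E n, ℂ)) (β : E n → ℝ) (i : ℕ) (l : ℝ) (hl : 0 < l) (x z : E n) :
    ∫ y, Φ y * (β (z + l⁻¹ • ((x - (2 : ℝ) ^ i • y) - z)) : ℂ) =
      ((((1 / 2 : ℝ) ^ i * l) ^ n : ℝ) : ℂ) *
        ∫ y, Φ ((1 / 2 : ℝ) ^ i • (x - z) + l • (-((1 / 2 : ℝ) ^ i • (y - z)))) * (β y : ℂ) := by
  set τ : ℝ := (1 / 2) ^ i with hτ
  have hτ0 : 0 < τ := by positivity
  have h2 : (2 : ℝ) ^ i * τ = 1 := by rw [hτ, ← mul_pow]; norm_num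
  set c : ℝ := τ * l with hc
  have hc0 : 0 < c := by positivity
  set a : E n := τ • (x - z) + c • z with ha
  set h : E n → ℂ := fun y => Φ y * (β (z + l⁻¹ • ((x - (2 : ℝ) ^ i • y) - z)) : ℂ) with hh
  have e1 : ∫ y, h y = ∫ y, h (a - y) := (integral_sub_left_eq_self h volume a).symm
  have e2 : ∫ y, h (a - c • y) = |(c ^ (Module.finrank ℝ (E n)))⁻¹| • ∫ y, h (a - y) :=
    Measure.integral_comp_smul volume (fun y => h (a - y)) c
  have hf : Module.finrank ℝ (E n) = n := by simp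
  rw [hf, abs_of_pos (by positivity)] at e2
  have e3 : ∫ y, h (a - y) = ((c ^ n : ℝ) : ℂ) * ∫ y, h (a - c • y) := by
    rw [e2, Complex.real_smul, ← mul_assoc, ← Complex.ofReal_mul, mul_inv_cancel₀ (by positivity)]
    simp
  rw [e1, e3]
  congr 1
  apply integral_congr_ae
  refine Filter.Eventually.of_forall fun y => ?_
  simp only [hh]
  have k1 : a - c • y = τ • (x - z) + l • (-(τ • (y - z))) := by
    rw [ha, hc]
    module
  have k2 : z + l⁻¹ • ((x - (2 : ℝ) ^ i • (a - c • y)) - z) = y := by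
    have : (2 : ℝ) ^ i • (a - c • y) = (x - z) + l • z - l • y := by
      rw [ha, hc]
      have : (2 : ℝ) ^ i • (τ • (x - z) + (τ * l) • z - (τ * l) • y) =
          ((2 : ℝ) ^ i * τ) • ((x - z) + l • z - l • y) := by module
      rw [this, h2, one_smul]
    rw [this]
    have : x - (x - z + l • z - l • y) - z = l • (y - z) := by module
    rw [this, smul_smul, inv_mul_cancel₀ hl.ne', one_smul]
    abel
  rw [k2, k1]

/-- piece LF -/
theorem LF : S_LF := by
  intro n M Φ hM l w hl hw β hβ hβs Λ L hL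
  obtain ⟨C0, hC0, hdec⟩ := LF_decay Φ M L
  obtain ⟨ρ, hρ⟩ := hβs.isCompact.isBounded.subset_closedBall (0 : E n)
  have hβi : Integrable β := hβ.integrable_of_hasCompactSupport hβs
  set W : ℝ := 1 + ∑ k, |w k| with hW
  have hW0 : 0 ≤ W := by have := Finset.sum_nonneg fun k (_ : k ∈ Finset.univ) => abs_nonneg (w k); linarith
  set R : ℝ := |ρ| + |Λ| with hR
  have hR0 : 0 ≤ R := by positivity
  set C1 : ℝ := W * (C0 * (1 + |Λ| + R) ^ L * R ^ M) with hC1
  have hC10 : 0 ≤ C1 := by positivity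
  refine ⟨C1 * ∫ y, ‖β y‖, fun z hz i x => ?_⟩
  set τ : ℝ := (1 / 2) ^ i with hτ
  have hτ0 : 0 < τ := by positivity
  have hτ1 : τ ≤ 1 := pow_le_one₀ (by norm_num) (by norm_num)
  have hbd : ∃ Bβ : ℝ, ∀ y, ‖β y‖ ≤ Bβ := hβs.exists_bound_of_continuous hβ
  obtain ⟨Bβ, hBβ⟩ := hbd
  -- the operator at negative index
  have hS : ∀ v : E n → ℂ, S Φ (-(i : ℤ)) v x = ∫ y, Φ y * v (x - (2 : ℝ) ^ i • y) := by
    intro v
    simp only [S, neg_neg, zpow_natCast]
  -- integrability of the terms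
  have hint : ∀ g : E n → ℝ, Continuous g → (∀ y, ‖g y‖ ≤ Bβ) →
      Integrable (fun y => Φ y * (g y : ℂ)) := by
    intro g hg hgb
    apply Φ.integrable.mul_bdd (c := Bβ)
    · exact (Complex.continuous_ofReal.comp hg).aestronglyMeasurable
    · exact Filter.Eventually.of_forall fun y => by
        rw [Complex.norm_real]; exact hgb y
  set q : E n → ℝ → ℂ := fun y s => Φ (τ • (x - z) + s • (-(τ • (y - z)))) with hq
  have hqi : ∀ s : ℝ, Integrable (fun y => q y s * (β y : ℂ)) := by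
    intro s
    have hc : Continuous (fun y => q y s * (β y : ℂ)) := by
      apply Continuous.mul
      · simp only [hq]
        exact Φ.continuous.comp (by fun_prop)
      · exact Complex.continuous_ofReal.comp hβ
    apply hc.integrable_of_hasCompactSupport
    apply HasCompactSupport.mul_left
    exact hβs.comp_left (g := fun t : ℝ => (t : ℂ)) (by simp)
  have main : S Φ (-(i : ℤ)) (cx (atm β l w z)) x =
      ((τ ^ n : ℝ) : ℂ) * ∫ y, (q y 1 - ∑ k, (w k : ℂ) * q y (l k)) * (β y : ℂ) := by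
    rw [hS]
    have e0 : ∀ y, Φ y * cx (atm β l w z) (x - (2 : ℝ) ^ i • y) =
        Φ y * (β (z + (1 : ℝ)⁻¹ • ((x - (2 : ℝ) ^ i • y) - z)) : ℂ) -
        ∑ k, ((w k * ((l k)⁻¹) ^ n : ℝ) : ℂ) *
          (Φ y * (β (z + (l k)⁻¹ • ((x - (2 : ℝ) ^ i • y) - z)) : ℂ)) := by
      intro y
      have : z + (1 : ℝ)⁻¹ • ((x - (2 : ℝ) ^ i • y) - z) = x - (2 : ℝ) ^ i • y := by
        rw [inv_one, one_smul]; abel
      rw [this]
      simp only [cx, atm]
      push_cast
      rw [mul_sub, Finset.mul_sum]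
      congr 1
      apply Finset.sum_congr rfl
      intro k _
      ring
    simp_rw [e0]
    have hI : ∀ l : ℝ, Integrable
        (fun y => Φ y * (β (z + l⁻¹ • ((x - (2 : ℝ) ^ i • y) - z)) : ℂ)) := by
      intro l
      exact hint (fun y => β (z + l⁻¹ • ((x - (2 : ℝ) ^ i • y) - z))) (hβ.comp (by fun_prop))
        (fun y => hBβ _)
    rw [integral_sub (hI 1) (integrable_finset_sum _ fun k _ => (hI (l k)).const_mul _),
      integral_finset_sum _ (fun k _ => (hI (l k)).const_mul _), LF3 Φ β i 1 one_pos x z]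
    simp_rw [integral_const_mul]
    have e1 : ∀ k, ((w k * ((l k)⁻¹) ^ n : ℝ) : ℂ) *
        ∫ y, Φ y * (β (z + (l k)⁻¹ • ((x - (2 : ℝ) ^ i • y) - z)) : ℂ) =
        ((τ ^ n : ℝ) : ℂ) * ((w k : ℂ) * ∫ y, q y (l k) * (β y : ℂ)) := by
      intro k
      rw [LF3 Φ β i (l k) (hl k).1 x z]
      have hlk : (l k) ≠ 0 := (hl k).1.ne'
      have : w k * ((l k)⁻¹) ^ n * (τ * l k) ^ n = τ ^ n * w k := by
        rw [mul_pow, inv_pow]
        field_simp
      rw [← mul_assoc, ← Complex.ofReal_mul, ← hτ, this]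
      push_cast
      ring
    simp_rw [e1]
    rw [← Finset.mul_sum, mul_one, ← hτ, ← mul_sub]
    congr 1
    simp_rw [sub_mul, Finset.sum_mul, mul_assoc]
    rw [integral_sub (hqi 1) (integrable_finset_sum _ fun k _ => (hqi (l k)).const_mul _),
      integral_finset_sum _ (fun k _ => (hqi (l k)).const_mul _)]
    simp_rw [integral_const_mul]
    rfl
  rw [main, norm_mul, Complex.norm_real, Real.norm_eq_abs, abs_of_pos (by positivity)]
  -- pointwise bound
  have hpt : ∀ y, ‖(q y 1 - ∑ k, (w k : ℂ) * q y (l k)) * (β y : ℂ)‖ ≤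
      (C1 * τ ^ M * (1 + τ * ‖x‖) ^ (-L)) * ‖β y‖ := by
    intro y
    rw [norm_mul, Complex.norm_real]
    by_cases hy : y ∈ tsupport β
    · apply mul_le_mul_of_nonneg_right _ (norm_nonneg _)
      have hyρ : ‖y‖ ≤ |ρ| := by
        have := hρ hy
        rw [mem_closedBall_zero_iff] at this
        exact this.trans (le_abs_self _)
      have hyz : ‖y - z‖ ≤ R := by
        refine (norm_sub_le _ _).trans ?_
        have := hz.trans (le_abs_self _)
        linarith
      have hz' : ‖z‖ ≤ |Λ| := hz.trans (le_abs_self _)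
      have hD : ‖-(τ • (y - z))‖ ≤ τ * R := by
        rw [norm_neg, norm_smul, Real.norm_eq_abs, abs_of_pos hτ0]
        exact mul_le_mul_of_nonneg_left hyz hτ0.le
      have hder : ∀ s ∈ Icc (0 : ℝ) 1, ‖iteratedDeriv M (q y) s‖ ≤
          C0 * (1 + |Λ| + R) ^ L * R ^ M * (τ ^ M * (1 + τ * ‖x‖) ^ (-L)) := by
        intro s hs
        refine (LF2 Φ M _ _ s).trans ?_
        set X := τ • (x - z) + s • -(τ • (y - z)) with hX
        have h1 := hdec X
        have h2 : 1 + τ * ‖x‖ ≤ (1 + ‖X‖) * (1 + |Λ| + R) := by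
          have hx : τ • x = X + τ • z + (s * τ) • (y - z) := by rw [hX]; module
          have h3 : τ * ‖x‖ ≤ ‖X‖ + ‖z‖ + ‖y - z‖ := by
            have : ‖τ • x‖ = τ * ‖x‖ := by rw [norm_smul, Real.norm_eq_abs, abs_of_pos hτ0]
            rw [← this, hx]
            refine (norm_add_le _ _).trans (add_le_add ((norm_add_le _ _).trans
              (add_le_add le_rfl ?_)) ?_)
            · rw [norm_smul, Real.norm_eq_abs, abs_of_pos hτ0]
              exact mul_le_of_le_one_left (norm_nonneg _) hτ1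
            · rw [norm_smul, Real.norm_eq_abs, abs_of_nonneg (mul_nonneg hs.1 hτ0.le)]
              exact mul_le_of_le_one_left (norm_nonneg _) (mul_le_one₀ hs.2 hτ0.le hτ1)
          nlinarith [norm_nonneg X, norm_nonneg z, norm_nonneg (y - z), abs_nonneg Λ]
        have h3 : (1 + ‖X‖) ^ (-L) ≤ (1 + |Λ| + R) ^ L * (1 + τ * ‖x‖) ^ (-L) := by
          have p1 : 0 < 1 + ‖X‖ := by positivity
          have p2 : 0 < 1 + |Λ| + R := by positivity
          have p3 : 0 < 1 + τ * ‖x‖ := by positivity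
          have h4 : (1 + τ * ‖x‖) ^ L ≤ (1 + ‖X‖) ^ L * (1 + |Λ| + R) ^ L := by
            rw [← Real.mul_rpow p1.le p2.le]
            exact Real.rpow_le_rpow p3.le h2 hL
          rw [Real.rpow_neg p1.le, Real.rpow_neg p3.le, ← div_eq_mul_inv,
            le_div_iff₀ (Real.rpow_pos_of_pos p3 _), inv_mul_le_iff₀ (Real.rpow_pos_of_pos p1 _)]
          exact h4
        calc ‖iteratedFDeriv ℝ M Φ X‖ * ‖-(τ • (y - z))‖ ^ M
            ≤ (C0 * ((1 + |Λ| + R) ^ L * (1 + τ * ‖x‖) ^ (-L))) * (τ * R) ^ M := by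
              apply mul_le_mul (h1.trans (mul_le_mul_of_nonneg_left h3 hC0))
                (pow_le_pow_left₀ (norm_nonneg _) hD _) (by positivity) (by positivity)
          _ = _ := by rw [mul_pow]; ring
      have hqc : ContDiff ℝ M (q y) := by
        simp only [hq]
        exact (Φ.smooth M).comp (contDiff_const.add (contDiff_id.smul contDiff_const))
      refine (LF1 hM l w hl hw (q y) hqc _ hder).trans (le_of_eq ?_)
      rw [hC1]
      ring
    · have : β y = 0 := image_eq_zero_of_notMem_tsupport hy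
      rw [this]
      simp
  have hfin : ‖∫ y, (q y 1 - ∑ k, (w k : ℂ) * q y (l k)) * (β y : ℂ)‖ ≤
      (C1 * τ ^ M * (1 + τ * ‖x‖) ^ (-L)) * ∫ y, ‖β y‖ := by
    rw [← integral_const_mul]
    exact norm_integral_le_of_norm_le (hβi.norm.const_mul _) (Filter.Eventually.of_forall hpt)
  calc τ ^ n * ‖∫ y, (q y 1 - ∑ k, (w k : ℂ) * q y (l k)) * (β y : ℂ)‖
      ≤ τ ^ n * ((C1 * τ ^ M * (1 + τ * ‖x‖) ^ (-L)) * ∫ y, ‖β y‖) :=
        mul_le_mul_of_nonneg_left hfin (by positivity)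
    _ = _ := by
      have : (1 / 2 : ℝ) ^ (i * (n + M)) = τ ^ n * τ ^ M := by
        rw [hτ, pow_mul, pow_add]
      rw [this]
      ring

end Run7.h991.BC
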