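import Pool.Agent.Run7.h991.BC.Iface

/-! Piece ML of the project MP_9b3711_an (helper991), written by helper590. -/

set_option autoImplicit false

open MeasureTheory FourierTransform SchwartzMap
open scoped ENNReal ContDiff

namespace Run7.h991.BC

theorem kap_cont {n : ℕ} (L : ℝ) : Continuous (kap L : E n → ℝ) := by
  unfold kap
  refine Continuous.rpow_const (by fun_prop) ?_
  intro w
  left
  have := norm_nonneg w
  positivity

theorem kap_meas {n : ℕ} (L : ℝ) : Measurable fun w : E n => ENNReal.ofReal (kap L w) :=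
  ENNReal.measurable_ofReal.comp (kap_cont L).measurable

theorem kap_neg {n : ℕ} (L : ℝ) (w : E n) : kap L (-w) = kap L w := by
  unfold kap
  rw [norm_neg]

theorem kap_fin {n : ℕ} (L : ℝ) (hL : (n : ℝ) < L) :
    ∫⁻ w : E n, ENNReal.ofReal (kap L w) ≠ ⊤ := by
  have h : Integrable (fun w : E n => (1 + ‖w‖) ^ (-L)) volume := by
    apply integrable_one_add_norm
    rw [finrank_euclideanSpace, Fintype.card_fin]
    exact hL
  have h2 := h.lintegral_lt_top
  exact h2.ne

theorem arg_meas {n : ℕ} (j : ℤ) :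
    Measurable fun q : E n × E n => q.1 - (2 : ℝ) ^ (-j) • q.2 := by
  have h1 : Continuous fun q : E n × E n => q.1 - (2 : ℝ) ^ (-j) • q.2 := by fun_prop
  exact h1.measurable

/-- Cauchy-Schwarz. -/
theorem T_sq_le {n : ℕ} (L : ℝ) (j : ℤ) (f : E n → ℝ≥0∞) (hf : Measurable f) (x : E n) :
    (T L j f x) ^ 2 ≤ (∫⁻ w : E n, ENNReal.ofReal (kap L w)) *
      ∫⁻ w, f (x - (2 : ℝ) ^ (-j) • w) ^ 2 * ENNReal.ofReal (kap L w) := by
  unfold T
  have hfm : Measurable fun w : E n => f (x - (2 : ℝ) ^ (-j) • w) := by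
    apply hf.comp
    have h1 : Continuous fun w : E n => x - (2 : ℝ) ^ (-j) • w := by fun_prop
    exact h1.measurable
  have hk : Measurable fun w : E n => ENNReal.ofReal (kap L w) ^ (1 / 2 : ℝ) :=
    (kap_meas L).pow_const _
  have h := ENNReal.lintegral_mul_le_Lp_mul_Lq (volume : Measure (E n))
    (Real.HolderConjugate.two_two) (hfm.mul hk).aemeasurable hk.aemeasurable
  have e1 : ∀ w : E n, ((fun w : E n => f (x - (2 : ℝ) ^ (-j) • w)) *
      fun w : E n => ENNReal.ofReal (kap L w) ^ (1 / 2 : ℝ)) w * ENNReal.ofReal (kap L w) ^ (1 / 2 : ℝ) =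
      f (x - (2 : ℝ) ^ (-j) • w) * ENNReal.ofReal (kap L w) := by
    intro w
    simp only [Pi.mul_apply]
    rw [mul_assoc, ← ENNReal.rpow_add_of_nonneg _ _ (by norm_num) (by norm_num)]
    norm_num
  have e2 : ∀ w : E n, (((fun w : E n => f (x - (2 : ℝ) ^ (-j) • w)) *
      fun w : E n => ENNReal.ofReal (kap L w) ^ (1 / 2 : ℝ)) w) ^ (2 : ℝ) =
      f (x - (2 : ℝ) ^ (-j) • w) ^ 2 * ENNReal.ofReal (kap L w) := by
    intro w
    simp only [Pi.mul_apply]
    rw [ENNReal.mul_rpow_of_nonneg _ _ (by norm_num), ← ENNReal.rpow_mul]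
    norm_num
  have e3 : ∀ w : E n, (ENNReal.ofReal (kap L w) ^ (1 / 2 : ℝ)) ^ (2 : ℝ) =
      ENNReal.ofReal (kap L w) := by
    intro w
    rw [← ENNReal.rpow_mul]
    norm_num
  have h' : ∫⁻ w, f (x - (2 : ℝ) ^ (-j) • w) * ENNReal.ofReal (kap L w) ≤
      (∫⁻ w, f (x - (2 : ℝ) ^ (-j) • w) ^ 2 * ENNReal.ofReal (kap L w)) ^ (1 / 2 : ℝ) *
      (∫⁻ w : E n, ENNReal.ofReal (kap L w)) ^ (1 / 2 : ℝ) := by
    refine le_trans (le_of_eq ?_) (h.trans (le_of_eq ?_))
    · exact lintegral_congr fun w => (e1 w).symm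
    · rw [lintegral_congr e2, lintegral_congr e3]
  calc _ ≤ ((∫⁻ w, f (x - (2 : ℝ) ^ (-j) • w) ^ 2 * ENNReal.ofReal (kap L w)) ^ (1 / 2 : ℝ) *
      (∫⁻ w : E n, ENNReal.ofReal (kap L w)) ^ (1 / 2 : ℝ)) ^ 2 := by gcongr
    _ = _ := by
      rw [mul_pow, ← ENNReal.rpow_natCast, ← ENNReal.rpow_natCast, ← ENNReal.rpow_mul,
        ← ENNReal.rpow_mul]
      norm_num
      ring

theorem ML : S_ML := by
  intro n L _ hL
  have hjoint : ∀ (j : ℤ) (f : E n → ℝ≥0∞), Measurable f →
      Measurable fun q : E n × E n => f (q.1 - (2 : ℝ) ^ (-j) • q.2) *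
        ENNReal.ofReal (kap L q.2) := fun j f hf =>
    (hf.comp (arg_meas j)).mul ((kap_meas L).comp measurable_snd)
  refine ⟨?_, ?_, ?_⟩
  · intro j f hf
    exact (hjoint j f hf).lintegral_prod_right'
  · refine ⟨(∫⁻ w : E n, ENNReal.ofReal (kap L w)) ^ 2, ENNReal.pow_ne_top (kap_fin L hL), ?_⟩
    intro j f hf
    refine (lintegral_mono fun x => T_sq_le L j f hf x).trans ?_
    have hj2 : Measurable fun q : E n × E n => f (q.1 - (2 : ℝ) ^ (-j) • q.2) ^ 2 *
        ENNReal.ofReal (kap L q.2) :=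
      ((hf.comp (arg_meas j)).pow_const 2).mul ((kap_meas L).comp measurable_snd)
    rw [lintegral_const_mul _ hj2.lintegral_prod_right']
    rw [sq, mul_assoc]
    gcongr
    rw [lintegral_lintegral_swap hj2.aemeasurable]
    have e1 : ∀ w : E n, ∫⁻ x, f (x - (2 : ℝ) ^ (-j) • w) ^ 2 * ENNReal.ofReal (kap L w) =
        ENNReal.ofReal (kap L w) * ∫⁻ x, f x ^ 2 := by
      intro w
      rw [lintegral_mul_const' _ _ ENNReal.ofReal_ne_top, mul_comm,
        lintegral_sub_right_eq_self (fun x => f x ^ 2)]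
    rw [lintegral_congr e1, lintegral_mul_const _ (kap_meas L)]
  · intro j f g hf hg
    unfold T
    have e1 : ∀ x : E n, (∫⁻ w, f (x - (2 : ℝ) ^ (-j) • w) * ENNReal.ofReal (kap L w)) * g x =
        ∫⁻ w, f (x - (2 : ℝ) ^ (-j) • w) * ENNReal.ofReal (kap L w) * g x := by
      intro x
      have hm : Measurable fun w : E n => f (x - (2 : ℝ) ^ (-j) • w) * ENNReal.ofReal (kap L w) :=
        (hjoint j f hf).comp (measurable_prodMk_left (x := x))
      exact (lintegral_mul_const _ hm).symm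
    have e2 : ∀ x : E n, f x * (∫⁻ w, g (x - (2 : ℝ) ^ (-j) • w) * ENNReal.ofReal (kap L w)) =
        ∫⁻ w, f x * (g (x - (2 : ℝ) ^ (-j) • w) * ENNReal.ofReal (kap L w)) := by
      intro x
      have hm : Measurable fun w : E n => g (x - (2 : ℝ) ^ (-j) • w) * ENNReal.ofReal (kap L w) :=
        (hjoint j g hg).comp (measurable_prodMk_left (x := x))
      exact (lintegral_const_mul _ hm).symm
    rw [lintegral_congr e1, lintegral_congr e2]
    have m1 : Measurable fun q : E n × E n => f (q.1 - (2 : ℝ) ^ (-j) • q.2) *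
        ENNReal.ofReal (kap L q.2) * g q.1 := (hjoint j f hf).mul (hg.comp measurable_fst)
    have m2 : Measurable fun q : E n × E n => f q.1 * (g (q.1 - (2 : ℝ) ^ (-j) • q.2) *
        ENNReal.ofReal (kap L q.2)) := (hf.comp measurable_fst).mul (hjoint j g hg)
    have s1 := lintegral_lintegral_swap (μ := (volume : Measure (E n)))
      (ν := (volume : Measure (E n))) (f := fun x w => f (x - (2 : ℝ) ^ (-j) • w) *
        ENNReal.ofReal (kap L w) * g x) m1.aemeasurable
    have s2 := lintegral_lintegral_swap (μ := (volume : Measure (E n)))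
      (ν := (volume : Measure (E n))) (f := fun x w => f x * (g (x - (2 : ℝ) ^ (-j) • w) *
        ENNReal.ofReal (kap L w))) m2.aemeasurable
    rw [s1, s2]
    rw [← lintegral_neg_eq_self (fun w : E n => ∫⁻ x, f x * (g (x - (2 : ℝ) ^ (-j) • w) *
        ENNReal.ofReal (kap L w)))]
    refine lintegral_congr fun w => ?_
    rw [← lintegral_sub_right_eq_self (fun x => f x * (g (x - (2 : ℝ) ^ (-j) • (-w)) *
        ENNReal.ofReal (kap L (-w)))) ((2 : ℝ) ^ (-j) • w)]
    refine lintegral_congr fun x => ?_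
    rw [kap_neg, smul_neg, sub_neg_eq_add, sub_add_cancel]
    ring

end Run7.h991.BC
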