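import Pool.Agent.Run7.h991.BC.Iface

/-!
# Piece PK: the packing cover
-/

set_option autoImplicit false

open MeasureTheory FourierTransform SchwartzMap
open scoped ENNReal ContDiff

namespace Run7.h991.BC

theorem side_pos (j : ℕ) : 0 < side j := by unfold side; positivity

theorem side_rpow_pos (j : ℕ) (d : ℝ) : 0 < side j ^ d := Real.rpow_pos_of_pos (side_pos j) d

/-- piece PK -/
theorem PK : S_DY → S_PK := by
  classical
  intro hDY n d _hd F
  obtain ⟨_, _, _, hnest, hne, _⟩ := hDY n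
  choose pt hpt using hne
  -- the ancestors
  let A : Finset (ℕ × (Fin n → ℤ)) := F.biUnion fun f =>
    (Finset.range (f.1 + 1)).image fun j => (j, cell j (pt f.1 f.2))
  have hA : ∀ q, q ∈ A ↔ ∃ f ∈ F, ∃ j ≤ f.1, q = (j, cell j (pt f.1 f.2)) := by
    intro q
    simp only [A, Finset.mem_biUnion, Finset.mem_image, Finset.mem_range]
    constructor
    · rintro ⟨f, hf, j, hj, rfl⟩
      exact ⟨f, hf, j, by omega, rfl⟩
    · rintro ⟨f, hf, j, hj, rfl⟩
      exact ⟨f, hf, j, by omega, rfl⟩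
  have hFA : F ⊆ A := by
    intro f hf
    rw [hA]
    refine ⟨f, hf, f.1, le_refl _, ?_⟩
    have : cell f.1 (pt f.1 f.2) = f.2 := hpt f.1 f.2
    rw [this]
  have hanc : ∀ q ∈ A, ∀ Q : ℕ × (Fin n → ℤ), cube q.1 q.2 ⊆ cube Q.1 Q.2 → Q.1 ≤ q.1 → Q ∈ A := by
    intro q hq Q hsub hle
    rw [hA] at hq
    obtain ⟨f, hf, j, hj, rfl⟩ := hq
    rw [hA]
    refine ⟨f, hf, Q.1, le_trans hle hj, ?_⟩
    have h1 : pt f.1 f.2 ∈ cube j (cell j (pt f.1 f.2)) := rfl
    have h2 : cell Q.1 (pt f.1 f.2) = Q.2 := hsub h1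
    rw [h2]
  -- the minimiser
  let P : Finset (ℕ × (Fin n → ℤ)) → Prop := fun R =>
    ∀ q ∈ F, ∀ x ∈ cube q.1 q.2, ∃ q' ∈ R, x ∈ cube q'.1 q'.2
  have hPF : P F := fun q hq x hx => ⟨q, hq, hx⟩
  have hcand : (A.powerset.filter P).Nonempty :=
    ⟨F, Finset.mem_filter.2 ⟨Finset.mem_powerset.2 hFA, hPF⟩⟩
  obtain ⟨R, hR, hmin⟩ := Finset.exists_min_image (A.powerset.filter P)
    (fun R => ∑ q ∈ R, side q.1 ^ d) hcand
  rw [Finset.mem_filter, Finset.mem_powerset] at hR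
  obtain ⟨hRA, hRP⟩ := hR
  have hmin' : ∀ R' : Finset (ℕ × (Fin n → ℤ)), R' ⊆ A → P R' →
      ∑ q ∈ R, side q.1 ^ d ≤ ∑ q ∈ R', side q.1 ^ d := fun R' h1 h2 =>
    hmin R' (Finset.mem_filter.2 ⟨Finset.mem_powerset.2 h1, h2⟩)
  -- no cube of R contains another one
  have hnocont : ∀ q ∈ R, ∀ q' ∈ R, q ≠ q' → ¬ cube q'.1 q'.2 ⊆ cube q.1 q.2 := by
    intro q hq q' hq' hne' hsub
    have h1 := hmin' (R.erase q') ((Finset.erase_subset _ _).trans hRA) (by
      intro f hf x hx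
      obtain ⟨r, hr, hxr⟩ := hRP f hf x hx
      by_cases hrq : r = q'
      · subst hrq
        exact ⟨q, Finset.mem_erase.2 ⟨hne', hq⟩, hsub hxr⟩
      · exact ⟨r, Finset.mem_erase.2 ⟨hrq, hr⟩, hxr⟩)
    have h2 := Finset.sum_erase_add R (fun q => side q.1 ^ d) hq'
    have h3 := side_rpow_pos q'.1 d
    linarith
  refine ⟨R, hRP, ?_, hmin' F hFA hPF, ?_⟩
  · intro q hq q' hq' hne'
    rcases le_total q.1 q'.1 with h | h
    · rcases hnest q.1 q'.1 q.2 q'.2 h with h1 | h1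
      · exact absurd h1 (hnocont q hq q' hq' hne')
      · exact h1.symm
    · rcases hnest q'.1 q.1 q'.2 q.2 h with h1 | h1
      · exact absurd h1 (hnocont q' hq' q hq hne'.symm)
      · exact h1
  · intro Q hQ R' hR'
    by_contra hcon
    push Not at hcon
    have hR'R : R' ⊆ R := fun q hq => ((hR' q).1 hq).1
    have hne' : R'.Nonempty := by
      by_contra h
      rw [Finset.not_nonempty_iff_eq_empty] at h
      rw [h, Finset.sum_empty] at hcon
      have := side_rpow_pos Q.1 d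
      linarith
    obtain ⟨q0, hq0⟩ := hne'
    obtain ⟨hq0R, hq0Q⟩ := (hR' q0).1 hq0
    have hQA : Q ∈ A := by
      refine hanc q0 (hRA hq0R) Q hq0Q ?_
      by_contra hlt
      push Not at hlt
      rcases hnest q0.1 Q.1 q0.2 Q.2 hlt.le with h1 | h1
      · exact hQ q0 hq0R h1
      · exact Set.disjoint_left.1 h1 (hq0Q (hpt q0.1 q0.2)) (hpt q0.1 q0.2)
    have h1 := hmin' (insert Q (R \ R')) (Finset.insert_subset hQA
      (Finset.sdiff_subset.trans hRA)) (by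
      intro f hf x hx
      obtain ⟨r, hr, hxr⟩ := hRP f hf x hx
      by_cases hrR' : r ∈ R'
      · exact ⟨Q, Finset.mem_insert_self _ _, ((hR' r).1 hrR').2 hxr⟩
      · exact ⟨r, Finset.mem_insert_of_mem (Finset.mem_sdiff.2 ⟨hr, hrR'⟩), hxr⟩)
    have h2 : ∑ q ∈ insert Q (R \ R'), side q.1 ^ d ≤ side Q.1 ^ d + ∑ q ∈ R \ R', side q.1 ^ d := by
      by_cases hmem : Q ∈ R \ R'
      · rw [Finset.insert_eq_of_mem hmem]
        have := side_rpow_pos Q.1 d
        linarith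
      · rw [Finset.sum_insert hmem]
    have h3 := Finset.sum_sdiff (f := fun q : ℕ × (Fin n → ℤ) => side q.1 ^ d) hR'R
    linarith

end Run7.h991.BC
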