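import Pool.Agent.Run7.h991.BC.Iface

/-!
# MP_9b3711_an: piece PT (helper136)
-/

set_option autoImplicit false

open MeasureTheory FourierTransform SchwartzMap
open scoped ENNReal ContDiff

namespace Run7.h991.BC

namespace PTaux

variable {n : ℕ}

/-- `S Φ j v` is continuous for continuous bounded `v` -/
lemma continuous_S (Φ : 𝓢(E n, ℂ)) (j : ℤ) {v : E n → ℂ} (hv : Continuous v) {B : ℝ}
    (hB : ∀ x, ‖v x‖ ≤ B) : Continuous (S Φ j v) := by
  unfold S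
  refine continuous_of_dominated (bound := fun y => ‖Φ y‖ * B) ?_ ?_ ?_ ?_
  · intro x
    have hc : Continuous fun y : E n => Φ y * v (x - (2 : ℝ) ^ (-j) • y) := by
      have h1 : Continuous (fun y : E n => (2 : ℝ) ^ (-j) • y) := continuous_const_smul _
      exact Φ.continuous.mul (hv.comp (continuous_const.sub h1))
    exact hc.aestronglyMeasurable
  · intro x
    refine Filter.Eventually.of_forall fun y => ?_
    rw [norm_mul]
    exact mul_le_mul_of_nonneg_left (hB _) (norm_nonneg _)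
  · exact (Φ.integrable (μ := volume)).norm.mul_const B
  · refine Filter.Eventually.of_forall fun y => ?_
    exact continuous_const.mul (hv.comp (continuous_id.sub continuous_const))

lemma integrable_S (Φ : 𝓢(E n, ℂ)) (j : ℤ) {v : E n → ℂ} (hv : Continuous v) {B : ℝ}
    (hB : ∀ x, ‖v x‖ ≤ B) (x : E n) :
    Integrable (fun y : E n => Φ y * v (x - (2 : ℝ) ^ (-j) • y)) := by
  have h1 : Continuous (fun y : E n => (2 : ℝ) ^ (-j) • y) := continuous_const_smul _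
  have hc : Continuous fun y : E n => Φ y * v (x - (2 : ℝ) ^ (-j) • y) :=
    Φ.continuous.mul (hv.comp (continuous_const.sub h1))
  refine ((Φ.integrable (μ := volume)).norm.mul_const B).mono' hc.aestronglyMeasurable ?_
  refine Filter.Eventually.of_forall fun y => ?_
  rw [norm_mul]
  exact mul_le_mul_of_nonneg_left (hB _) (norm_nonneg _)

lemma S_bound (Φ : 𝓢(E n, ℂ)) (j : ℤ) {v : E n → ℂ} {B : ℝ}
    (hB : ∀ x, ‖v x‖ ≤ B) (x : E n) : ‖S Φ j v x‖ ≤ (∫ y, ‖Φ y‖) * B := by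
  unfold S
  rw [← integral_mul_const]
  refine norm_integral_le_of_norm_le ((Φ.integrable (μ := volume)).norm.mul_const B) ?_
  refine Filter.Eventually.of_forall fun y => ?_
  rw [norm_mul]
  exact mul_le_mul_of_nonneg_left (hB _) (norm_nonneg _)

/-- the blocks are continuous -/
lemma continuous_blk (Φ : 𝓢(E n, ℂ)) (j : ℕ) {v : E n → ℂ} (hv : Continuous v) {B : ℝ}
    (hB : ∀ x, ‖v x‖ ≤ B) : Continuous (blk Φ j v) := by
  cases j with
  | zero => exact continuous_S Φ 0 hv hB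
  | succ j => exact (continuous_S Φ _ hv hB).sub (continuous_S Φ _ hv hB)

/-- linearity of `S` -/
lemma S_sum (Φ : 𝓢(E n, ℂ)) (j : ℤ) {ι : Type} (s : Finset ι) (c : ι → ℝ) (f : ι → E n → ℝ)
    (hf : ∀ i ∈ s, Continuous (f i)) (hb : ∀ i ∈ s, ∃ B : ℝ, ∀ x, ‖cx (f i) x‖ ≤ B) (x : E n) :
    S Φ j (cx fun x => ∑ i ∈ s, c i * f i x) x = ∑ i ∈ s, (c i : ℂ) * S Φ j (cx (f i)) x := by
  unfold S
  have h : ∀ y : E n, Φ y * cx (fun x => ∑ i ∈ s, c i * f i x) (x - (2 : ℝ) ^ (-j) • y) =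
      ∑ i ∈ s, (c i : ℂ) * (Φ y * cx (f i) (x - (2 : ℝ) ^ (-j) • y)) := by
    intro y
    simp only [cx, Complex.ofReal_sum, Complex.ofReal_mul, Finset.mul_sum]
    exact Finset.sum_congr rfl fun i _ => by ring
  simp only [h]
  rw [integral_finset_sum]
  · exact Finset.sum_congr rfl fun i _ => integral_const_mul _ _
  · intro i hi
    obtain ⟨B, hB⟩ := hb i hi
    exact (integrable_S Φ j (Complex.continuous_ofReal.comp (hf i hi)) hB x).const_mul _

lemma blk_sum (Φ : 𝓢(E n, ℂ)) (j : ℕ) {ι : Type} (s : Finset ι) (c : ι → ℝ) (f : ι → E n → ℝ)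
    (hf : ∀ i ∈ s, Continuous (f i)) (hb : ∀ i ∈ s, ∃ B : ℝ, ∀ x, ‖cx (f i) x‖ ≤ B) (x : E n) :
    blk Φ j (cx fun x => ∑ i ∈ s, c i * f i x) x = ∑ i ∈ s, (c i : ℂ) * blk Φ j (cx (f i)) x := by
  cases j with
  | zero => exact S_sum Φ 0 s c f hf hb x
  | succ j =>
    simp only [blk]
    rw [S_sum Φ _ s c f hf hb x, S_sum Φ _ s c f hf hb x, ← Finset.sum_sub_distrib]
    exact Finset.sum_congr rfl fun i _ => by ring

/-- `p`-triangle inequality for finite sums -/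
lemma rpow_sum_le {p : ℝ} (hp : 0 < p) (hp1 : p ≤ 1) {ι : Type} (s : Finset ι) (a : ι → ℝ≥0∞) :
    (∑ i ∈ s, a i) ^ p ≤ ∑ i ∈ s, a i ^ p := by
  classical
  induction s using Finset.induction_on with
  | empty => simp [ENNReal.zero_rpow_of_pos hp]
  | insert i s hi ih =>
    rw [Finset.sum_insert hi, Finset.sum_insert hi]
    exact (ENNReal.rpow_add_le_add_rpow _ _ hp.le hp1).trans (add_le_add le_rfl ih)

lemma enorm_sum_rpow_le {p : ℝ} (hp : 0 < p) (hp1 : p ≤ 1) {ι : Type} (s : Finset ι)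
    (c : ι → ℝ) (a : ι → ℂ) :
    ‖∑ i ∈ s, (c i : ℂ) * a i‖ₑ ^ p ≤ ∑ i ∈ s, ENNReal.ofReal (|c i| ^ p) * ‖a i‖ₑ ^ p := by
  calc ‖∑ i ∈ s, (c i : ℂ) * a i‖ₑ ^ p ≤ (∑ i ∈ s, ‖(c i : ℂ) * a i‖ₑ) ^ p :=
        ENNReal.rpow_le_rpow (enorm_sum_le _ _) hp.le
    _ ≤ ∑ i ∈ s, ‖(c i : ℂ) * a i‖ₑ ^ p := rpow_sum_le hp hp1 _ _
    _ = _ := by
        refine Finset.sum_congr rfl fun i _ => ?_
        rw [enorm_mul, ENNReal.mul_rpow_of_nonneg _ _ hp.le]
        congr 1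
        rw [← ENNReal.ofReal_rpow_of_nonneg (abs_nonneg _) hp.le]
        congr 1
        rw [← ofReal_norm_eq_enorm, Complex.norm_real, Real.norm_eq_abs]

/-- a continuous function of compact support is bounded -/
lemma bdd_cx {f : E n → ℝ} (hf : Continuous f) (hs : HasCompactSupport f) :
    ∃ B : ℝ, ∀ x, ‖cx f x‖ ≤ B := by
  obtain ⟨B, hB⟩ := hf.bounded_above_of_compact_support hs
  exact ⟨B, fun x => by simpa [cx] using hB x⟩

lemma continuous_cx {f : E n → ℝ} (hf : Continuous f) : Continuous (cx f) :=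
  Complex.continuous_ofReal.comp hf

end PTaux

open PTaux

theorem PT : S_PT := by
  intro n Φ α p hp hp1 ι s c f hf
  have hc : ∀ i ∈ s, Continuous (f i) := fun i hi => (hf i hi).1
  have hb : ∀ i ∈ s, ∃ B : ℝ, ∀ x, ‖cx (f i) x‖ ≤ B := fun i hi => bdd_cx (hf i hi).1 (hf i hi).2
  unfold besov
  have key : ∀ j : ℕ, ∫⁻ x, ‖blk Φ j (cx fun x => ∑ i ∈ s, c i * f i x) x‖ₑ ^ p ≤
      ∑ i ∈ s, ENNReal.ofReal (|c i| ^ p) * ∫⁻ x, ‖blk Φ j (cx (f i)) x‖ₑ ^ p := by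
    intro j
    have hm : ∀ i ∈ s, Measurable fun x => ‖blk Φ j (cx (f i)) x‖ₑ ^ p := by
      intro i hi
      obtain ⟨B, hB⟩ := hb i hi
      have := continuous_blk Φ j (continuous_cx (hc i hi)) hB
      exact (this.measurable.enorm).pow_const p
    calc ∫⁻ x, ‖blk Φ j (cx fun x => ∑ i ∈ s, c i * f i x) x‖ₑ ^ p
        ≤ ∫⁻ x, ∑ i ∈ s, ENNReal.ofReal (|c i| ^ p) * ‖blk Φ j (cx (f i)) x‖ₑ ^ p := by
          refine lintegral_mono fun x => ?_
          rw [blk_sum Φ j s c f hc hb x]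
          exact enorm_sum_rpow_le hp hp1 s c _
      _ = ∑ i ∈ s, ∫⁻ x, ENNReal.ofReal (|c i| ^ p) * ‖blk Φ j (cx (f i)) x‖ₑ ^ p := by
          exact lintegral_finset_sum' s fun i hi => ((hm i hi).const_mul _).aemeasurable
      _ = _ := by
          refine Finset.sum_congr rfl fun i hi => ?_
          exact lintegral_const_mul _ (hm i hi)
  calc ∑' j : ℕ, ENNReal.ofReal ((2 : ℝ) ^ ((j : ℝ) * α * p)) *
        ∫⁻ x, ‖blk Φ j (cx fun x => ∑ i ∈ s, c i * f i x) x‖ₑ ^ p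
      ≤ ∑' j : ℕ, ∑ i ∈ s, ENNReal.ofReal (|c i| ^ p) *
          (ENNReal.ofReal ((2 : ℝ) ^ ((j : ℝ) * α * p)) * ∫⁻ x, ‖blk Φ j (cx (f i)) x‖ₑ ^ p) := by
        refine ENNReal.tsum_le_tsum fun j => ?_
        refine (mul_le_mul_right (key j) _).trans (le_of_eq ?_)
        rw [Finset.mul_sum]
        exact Finset.sum_congr rfl fun i _ => by ring
    _ = ∑ i ∈ s, ∑' j : ℕ, ENNReal.ofReal (|c i| ^ p) *
          (ENNReal.ofReal ((2 : ℝ) ^ ((j : ℝ) * α * p)) * ∫⁻ x, ‖blk Φ j (cx (f i)) x‖ₑ ^ p) :=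
        Summable.tsum_finsetSum fun i _ => ENNReal.summable
    _ = _ := Finset.sum_congr rfl fun i _ => ENNReal.tsum_mul_left

end Run7.h991.BC
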