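import Pool.Agent.Run7.h991.BC.PK

/-!
# Piece SEL: selection of a good small cube near a cube of the packing family
-/

set_option autoImplicit false

open MeasureTheory FourierTransform SchwartzMap
open scoped ENNReal ContDiff

namespace Run7.h991.BC

theorem side_succ (j : ℕ) : side (j + 1) = 1 / 2 * side j := by unfold side; rw [pow_succ]; ring

theorem side_add (j k : ℕ) : side (j + k) = side j * (1 / 2 : ℝ) ^ k := by
  unfold side; rw [pow_add]

theorem side_anti {i j : ℕ} (h : i ≤ j) : side j ≤ side i := by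
  unfold side
  exact pow_le_pow_of_le_one (by norm_num) (by norm_num) h

/-- the descendants of generation `j + k` of the cube `(j, m)` -/
noncomputable def desc {n : ℕ} (k : ℕ) (m : Fin n → ℤ) : Finset (Fin n → ℤ) :=
  Fintype.piFinset fun i => Finset.Ico (2 ^ k * m i) (2 ^ k * (m i + 1))

theorem mem_desc {n : ℕ} (j k : ℕ) (m : Fin n → ℤ) (x : E n) (hx : cell j x = m) :
    cell (j + k) x ∈ desc k m := by
  rw [desc, Fintype.mem_piFinset]
  intro i
  have h : ⌊(2 : ℝ) ^ j * x i⌋ = m i := congrFun hx i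
  rw [Int.floor_eq_iff] at h
  rw [Finset.mem_Ico]
  have h2 : (0 : ℝ) < 2 ^ k := by positivity
  have he : (2 : ℝ) ^ (j + k) * x i = 2 ^ k * (2 ^ j * x i) := by rw [pow_add]; ring
  constructor
  · show _ ≤ ⌊(2 : ℝ) ^ (j + k) * x i⌋
    rw [Int.le_floor, he]
    push_cast
    exact mul_le_mul_of_nonneg_left h.1 h2.le
  · show ⌊(2 : ℝ) ^ (j + k) * x i⌋ < _
    rw [Int.floor_lt, he]
    push_cast
    exact mul_lt_mul_of_pos_left h.2 h2

/-- piece SEL -/
theorem SEL : S_DY → S_SEL := by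
  classical
  intro hDY n d hd hdn
  obtain ⟨hpar, hmeas, hvol, hnest, hne, _⟩ := hDY n
  have hn : 1 ≤ n := by
    rcases Nat.eq_zero_or_pos n with h | h
    · subst h; exfalso; simp only [Nat.cast_zero] at hdn; linarith
    · exact h
  set η : ℝ := (1 / 2 : ℝ) ^ ((n : ℝ) - d) with hη
  have hη1 : η < 1 := Real.rpow_lt_one (by norm_num) (by norm_num) (by linarith)
  have hη0 : 0 < η := Real.rpow_pos_of_pos (by norm_num) _
  refine ⟨2 ^ d / (1 - η), div_pos (Real.rpow_pos_of_pos (by norm_num) _) (by linarith), ?_⟩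
  intro R hdis hpack g m hgm t
  set G : ℕ := g + 1 + t with hG
  -- (a)
  have hsubP : cube (g + 1) m ⊆ cube g (par m) := by
    intro x hx
    show cell g x = par m
    rw [hpar g x]
    congr 1
  -- (b)
  have hvolne : ¬ cube g (par m) ⊆ cube (g + 1) m := by
    intro h
    have h1 := measure_mono (μ := volume) h
    rw [hvol, hvol, ENNReal.ofReal_le_ofReal_iff (by have := side_pos (g + 1); positivity),
      side_succ, mul_pow] at h1
    have h2 : (0 : ℝ) < side g ^ n := pow_pos (side_pos g) n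
    have h3 : (1 / 2 : ℝ) ^ n ≤ (1 / 2) ^ 1 := pow_le_pow_of_le_one (by norm_num) (by norm_num) hn
    nlinarith
  have hPnot : ∀ q ∈ R, ¬ cube g (par m) ⊆ cube q.1 q.2 := by
    intro q hq h
    by_cases hqe : q = (g + 1, m)
    · subst hqe
      exact hvolne h
    · have h1 := hdis q hq (g + 1, m) hgm hqe
      obtain ⟨x, hx⟩ := hne (g + 1) m
      exact Set.disjoint_left.1 h1 (h (hsubP hx)) hx
  -- (c)
  set RP := R.filter (fun q => cube q.1 q.2 ⊆ cube g (par m)) with hRP
  have hc : ∑ q ∈ RP, side q.1 ^ d ≤ side g ^ d :=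
    hpack (g, par m) hPnot RP (fun q => by rw [hRP, Finset.mem_filter])
  have hgen : ∀ q ∈ RP, g + 1 ≤ q.1 := by
    intro q hq
    rw [hRP, Finset.mem_filter] at hq
    by_contra hlt
    push Not at hlt
    rcases hnest q.1 g q.2 (par m) (by omega) with h1 | h1
    · exact hPnot q hq.1 h1
    · obtain ⟨x, hx⟩ := hne q.1 q.2
      exact Set.disjoint_left.1 h1 (hq.2 hx) hx
  -- (d)
  have hsumvol : ∑ q ∈ RP, side q.1 ^ n ≤ η * side g ^ n := by
    calc ∑ q ∈ RP, side q.1 ^ n ≤ ∑ q ∈ RP, side (g + 1) ^ ((n : ℝ) - d) * side q.1 ^ d := by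
          refine Finset.sum_le_sum fun q hq => ?_
          have h1 : side q.1 ^ n = side q.1 ^ ((n : ℝ) - d) * side q.1 ^ d := by
            rw [← Real.rpow_add (side_pos _), sub_add_cancel, Real.rpow_natCast]
          rw [h1]
          refine mul_le_mul_of_nonneg_right ?_ (side_rpow_pos _ _).le
          exact Real.rpow_le_rpow (side_pos _).le (side_anti (hgen q hq)) (by linarith)
      _ = side (g + 1) ^ ((n : ℝ) - d) * ∑ q ∈ RP, side q.1 ^ d := by rw [Finset.mul_sum]
      _ ≤ side (g + 1) ^ ((n : ℝ) - d) * side g ^ d :=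
          mul_le_mul_of_nonneg_left hc (side_rpow_pos _ _).le
      _ = η * side g ^ n := by
          rw [side_succ, Real.mul_rpow (by norm_num) (side_pos g).le, mul_assoc,
            ← Real.rpow_add (side_pos _), sub_add_cancel, Real.rpow_natCast]
  -- (e), (f)
  set I := (desc (1 + t) (par m)).filter (fun m' =>
    ∃ x, x ∈ cube G m' ∧ x ∈ cube g (par m) ∧ ∀ q ∈ R, x ∉ cube q.1 q.2) with hI
  have hG' : G = g + (1 + t) := by rw [hG]; ring
  have hcover : cube g (par m) ⊆ (⋃ m' ∈ I, cube G m') ∪ ⋃ q ∈ RP, cube q.1 q.2 := by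
    intro x hx
    by_cases h : ∃ q ∈ R, x ∈ cube q.1 q.2
    · right
      obtain ⟨q, hq, hxq⟩ := h
      refine Set.mem_iUnion₂.2 ⟨q, ?_, hxq⟩
      rw [hRP, Finset.mem_filter]
      refine ⟨hq, ?_⟩
      rcases le_total q.1 g with hle | hle
      · rcases hnest q.1 g q.2 (par m) hle with h1 | h1
        · exact absurd h1 (hPnot q hq)
        · exact absurd hxq (Set.disjoint_left.1 h1 hx)
      · rcases hnest g q.1 (par m) q.2 hle with h1 | h1
        · exact h1
        · exact absurd hx (Set.disjoint_left.1 h1 hxq)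
    · left
      push Not at h
      refine Set.mem_iUnion₂.2 ⟨cell G x, ?_, rfl⟩
      rw [hI, Finset.mem_filter]
      refine ⟨?_, x, rfl, hx, h⟩
      rw [hG']
      exact mem_desc g (1 + t) (par m) x hx
  -- (g)
  have hgv : side g ^ n ≤ I.card * side G ^ n + ∑ q ∈ RP, side q.1 ^ n := by
    have h1 : volume (cube g (par m)) ≤
        ∑ m' ∈ I, volume (cube G m') + ∑ q ∈ RP, volume (cube (n := n) q.1 q.2) :=
      (measure_mono hcover).trans ((measure_union_le _ _).trans
        (add_le_add (measure_biUnion_finset_le _ _) (measure_biUnion_finset_le _ _)))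
    simp only [hvol] at h1
    rw [← ENNReal.ofReal_sum_of_nonneg (fun i _ => (pow_pos (side_pos _) n).le),
      ← ENNReal.ofReal_sum_of_nonneg (fun i _ => (pow_pos (side_pos _) n).le),
      ← ENNReal.ofReal_add (Finset.sum_nonneg fun i _ => (pow_pos (side_pos _) n).le)
        (Finset.sum_nonneg fun i _ => (pow_pos (side_pos _) n).le),
      ENNReal.ofReal_le_ofReal_iff (add_nonneg
        (Finset.sum_nonneg fun i _ => (pow_pos (side_pos _) n).le)
        (Finset.sum_nonneg fun i _ => (pow_pos (side_pos _) n).le))] at h1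
    simpa using h1
  have hsg : (0 : ℝ) < side g ^ n := pow_pos (side_pos g) n
  have hcard : 1 - η ≤ I.card * (1 / 2 : ℝ) ^ ((1 + t) * n) := by
    have h1 : side G ^ n = side g ^ n * (1 / 2 : ℝ) ^ ((1 + t) * n) := by
      rw [hG', side_add, mul_pow, ← pow_mul]
    rw [h1] at hgv
    have h2 : side g ^ n * (1 - η) ≤ side g ^ n * (I.card * (1 / 2 : ℝ) ^ ((1 + t) * n)) := by
      nlinarith
    exact le_of_mul_le_mul_left h2 hsg
  have hIne : I.Nonempty := by
    by_contra h
    rw [Finset.not_nonempty_iff_eq_empty] at h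
    rw [h] at hcard
    simp only [Finset.card_empty, Nat.cast_zero, zero_mul] at hcard
    linarith
  -- (j)
  have hIP : ∀ m' ∈ I, cube G m' ⊆ cube g (par m) := by
    intro m' hm'
    rw [hI, Finset.mem_filter] at hm'
    obtain ⟨_, x, hx1, hx2, _⟩ := hm'
    rcases hnest g G (par m) m' (by omega) with h1 | h1
    · exact h1
    · exact absurd hx2 (Set.disjoint_left.1 h1 hx1)
  have hIR : ∀ m' ∈ I, ∀ q ∈ R, ¬ cube G m' ⊆ cube q.1 q.2 := by
    intro m' hm' q hq h
    rw [hI, Finset.mem_filter] at hm'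
    obtain ⟨_, x, hx1, hx2, hx3⟩ := hm'
    exact hx3 q hq (h hx1)
  -- (h)
  let f : (Fin n → ℤ) → Finset (ℕ × (Fin n → ℤ)) := fun m' =>
    R.filter (fun q => cube q.1 q.2 ⊆ cube G m')
  have hf : ∀ m' q, q ∈ f m' ↔ (q ∈ R ∧ cube q.1 q.2 ⊆ cube G m') := by
    intro m' q
    simp only [f, Finset.mem_filter]
  have hsum : ∑ m' ∈ I, ∑ q ∈ f m', side q.1 ^ d ≤ side g ^ d := by
    rw [← Finset.sum_biUnion]
    · refine le_trans (Finset.sum_le_sum_of_subset_of_nonneg ?_
        fun q _ _ => (side_rpow_pos q.1 d).le) hc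
      intro q hq
      rw [Finset.mem_biUnion] at hq
      obtain ⟨m', hm', hq'⟩ := hq
      rw [hf] at hq'
      rw [hRP, Finset.mem_filter]
      exact ⟨hq'.1, hq'.2.trans (hIP m' hm')⟩
    · intro m1 _ m2 _ h12
      rw [Function.onFun, Finset.disjoint_left]
      intro q hq1 hq2
      rw [hf] at hq1 hq2
      obtain ⟨x, hx⟩ := hne q.1 q.2
      have h1 : cell G x = m1 := hq1.2 hx
      have h2 : cell G x = m2 := hq2.2 hx
      exact h12 (h1.symm.trans h2)
  -- (i)
  set B : ℝ := 2 ^ d / (1 - η) * (1 / 2) ^ (t * n) * side (g + 1) ^ d with hB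
  have hBval : B = 1 / (1 - η) * (1 / 2) ^ (t * n) * side g ^ d := by
    rw [hB, side_succ, Real.mul_rpow (by norm_num) (side_pos g).le]
    have h1 : (2 : ℝ) ^ d * (1 / 2 : ℝ) ^ d = 1 := by
      rw [← Real.mul_rpow (by norm_num) (by norm_num)]
      norm_num
    calc 2 ^ d / (1 - η) * (1 / 2) ^ (t * n) * ((1 / 2) ^ d * side g ^ d)
        = (2 ^ d * (1 / 2 : ℝ) ^ d) * (1 / (1 - η) * (1 / 2) ^ (t * n) * side g ^ d) := by ring
      _ = _ := by rw [h1, one_mul]
  have hle : ∑ m' ∈ I, ∑ q ∈ f m', side q.1 ^ d ≤ ∑ m' ∈ I, B := by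
    refine hsum.trans ?_
    rw [Finset.sum_const, nsmul_eq_mul, hBval]
    have h1 : (0 : ℝ) < 1 - η := by linarith
    have h2 : (0 : ℝ) < side g ^ d := side_rpow_pos g d
    have h3 : (1 / 2 : ℝ) ^ ((1 + t) * n) ≤ (1 / 2) ^ (t * n) :=
      pow_le_pow_of_le_one (by norm_num) (by norm_num) (Nat.mul_le_mul_right n (by omega))
    have h4 : (1 - η) ≤ I.card * (1 / 2 : ℝ) ^ (t * n) :=
      hcard.trans (mul_le_mul_of_nonneg_left h3 (Nat.cast_nonneg _))
    have h5 : 1 ≤ (I.card * (1 / 2 : ℝ) ^ (t * n)) / (1 - η) := by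
      rw [le_div_iff₀ h1]; linarith
    calc side g ^ d = 1 * side g ^ d := (one_mul _).symm
      _ ≤ ((I.card * (1 / 2 : ℝ) ^ (t * n)) / (1 - η)) * side g ^ d :=
          mul_le_mul_of_nonneg_right h5 h2.le
      _ = _ := by ring
  obtain ⟨m', hm', hle'⟩ := Finset.exists_le_of_sum_le hIne hle
  refine ⟨m', hIP m' hm', hIR m' hm', ?_⟩
  intro R' hR'
  have : R' = f m' := by
    ext q
    rw [hR', hf]
  rw [this]
  exact hle'

end Run7.h991.BC
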