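import Pool.Agent.Run7.h991.BC.Iface

/-! Piece TR of the project MP_9b3711_an (helper991), written by helper590. -/

set_option autoImplicit false

open MeasureTheory FourierTransform SchwartzMap
open scoped ENNReal ContDiff

namespace Run7.h991.BC

theorem sum_rpow_le {s : ℝ} (hs : 0 < s) (hs1 : s ≤ 1) {ι : Type} (a : ι → ℝ≥0∞) (F : Finset ι) :
    (∑ j ∈ F, a j) ^ s ≤ ∑ j ∈ F, a j ^ s := by
  classical
  induction F using Finset.induction_on with
  | empty => simp [hs]
  | insert i F hi ih =>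
    rw [Finset.sum_insert hi, Finset.sum_insert hi]
    exact (ENNReal.rpow_add_le_add_rpow _ _ hs.le hs1).trans (by gcongr)

theorem tsum_rpow_le {s : ℝ} (hs : 0 < s) (hs1 : s ≤ 1) (a : ℕ → ℝ≥0∞) :
    (∑' j, a j) ^ s ≤ ∑' j, a j ^ s := by
  have h1 : Filter.Tendsto (fun F : Finset ℕ => ∑ j ∈ F, a j) Filter.atTop (nhds (∑' j, a j)) :=
    ENNReal.summable.hasSum
  have h2 := (ENNReal.continuous_rpow_const (y := s)).continuousAt.tendsto.comp h1
  refine le_of_tendsto' h2 fun F => ?_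
  exact (sum_rpow_le hs hs1 a F).trans (ENNReal.sum_le_tsum F)

theorem S_measurable {n : ℕ} (Φ : 𝓢(E n, ℂ)) (j : ℤ) (u : 𝓢(E n, ℝ)) :
    Measurable (S Φ j (cx u)) := by
  unfold S
  have h : Continuous fun q : E n × E n => Φ q.2 * cx u (q.1 - (2 : ℝ) ^ (-j) • q.2) := by
    apply Continuous.mul
    · exact Φ.continuous.comp continuous_snd
    · unfold cx
      have h1 : Continuous fun q : E n × E n => q.1 - (2 : ℝ) ^ (-j) • q.2 := by fun_prop
      exact Complex.continuous_ofReal.comp (u.continuous.comp h1)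
  exact (h.stronglyMeasurable.integral_prod_right').measurable

theorem blk_measurable {n : ℕ} (Φ : 𝓢(E n, ℂ)) (j : ℕ) (u : 𝓢(E n, ℝ)) :
    Measurable (blk Φ j (cx u)) := by
  cases j with
  | zero => exact S_measurable Φ 0 u
  | succ j => exact (S_measurable Φ _ u).sub (S_measurable Φ _ u)

theorem TR : S_TR := by
  intro n Φ α p hp hp2 u
  unfold triebel besov
  have h1 : ∀ x : E n, (∑' j : ℕ, (ENNReal.ofReal ((2 : ℝ) ^ ((j : ℝ) * α)) *
      ‖blk Φ j (cx u) x‖ₑ) ^ (2 : ℝ)) ^ (p / 2) ≤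
      ∑' j : ℕ, ENNReal.ofReal ((2 : ℝ) ^ ((j : ℝ) * α * p)) * ‖blk Φ j (cx u) x‖ₑ ^ p := by
    intro x
    refine (tsum_rpow_le (by linarith) (by linarith) _).trans ?_
    refine ENNReal.tsum_le_tsum fun j => ?_
    rw [← ENNReal.rpow_mul, show (2 : ℝ) * (p / 2) = p by ring, ENNReal.mul_rpow_of_nonneg _ _ hp.le,
      ENNReal.ofReal_rpow_of_nonneg (by positivity) hp.le, ← Real.rpow_mul (by norm_num)]
  refine (lintegral_mono h1).trans ?_
  rw [lintegral_tsum]
  · refine ENNReal.tsum_le_tsum fun j => ?_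
    rw [lintegral_const_mul']
    exact ENNReal.ofReal_ne_top
  · intro j
    exact (((blk_measurable Φ j u).enorm.pow_const p).const_mul _).aemeasurable

end Run7.h991.BC
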