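import Pool.Agent.Run7.h991.BC.Iface

/-! Piece TS of the project MP_9b3711_an (helper991), written by helper590. -/

set_option autoImplicit false

open MeasureTheory FourierTransform SchwartzMap
open scoped ENNReal ContDiff

namespace Run7.h991.BC

theorem kap_shift {n : ℕ} (L : ℝ) (hL : 0 ≤ L) (w a : E n) :
    kap L (w + a) ≤ (1 + ‖a‖) ^ L * kap L w := by
  unfold kap
  have h1 : 1 + ‖w‖ ≤ (1 + ‖w + a‖) * (1 + ‖a‖) := by
    have h2 : ‖w‖ ≤ ‖w + a‖ + ‖a‖ := by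
      calc ‖w‖ = ‖(w + a) - a‖ := by rw [add_sub_cancel_right]
        _ ≤ ‖w + a‖ + ‖a‖ := norm_sub_le _ _
    nlinarith [norm_nonneg (w + a), norm_nonneg a]
  have h3 : (1 + ‖w‖) ^ L ≤ ((1 + ‖w + a‖) * (1 + ‖a‖)) ^ L :=
    Real.rpow_le_rpow (by positivity) h1 hL
  rw [Real.mul_rpow (by positivity) (by positivity)] at h3
  rw [Real.rpow_neg (by positivity), Real.rpow_neg (by positivity)]
  have p1 : 0 < (1 + ‖w + a‖) ^ L := Real.rpow_pos_of_pos (by positivity) _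
  have p2 : 0 < (1 + ‖w‖) ^ L := Real.rpow_pos_of_pos (by positivity) _
  rw [← div_eq_mul_inv, inv_eq_one_div, div_le_div_iff₀ p1 p2]
  linarith

theorem TS : S_TS := by
  intro n L ρ hL hρ j f x y hxy
  unfold T
  set a : E n := (2 : ℝ) ^ j • (x - y) with ha
  have h2 : (0 : ℝ) < (2 : ℝ) ^ j := by positivity
  have hna : ‖a‖ ≤ ρ := by
    rw [ha, norm_smul, Real.norm_of_nonneg h2.le]
    calc (2 : ℝ) ^ j * ‖x - y‖ ≤ (2 : ℝ) ^ j * (ρ * (2 : ℝ) ^ (-j)) :=
          mul_le_mul_of_nonneg_left hxy h2.le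
      _ = ρ * ((2 : ℝ) ^ j * (2 : ℝ) ^ (-j)) := by ring
      _ = ρ := by rw [← zpow_add₀ (by norm_num), add_neg_cancel, zpow_zero, mul_one]
  have hsub : ∀ w : E n, x - (2 : ℝ) ^ (-j) • w = y - (2 : ℝ) ^ (-j) • (w - a) := by
    intro w
    rw [smul_sub, ha, smul_smul, ← zpow_add₀ (by norm_num), neg_add_cancel, zpow_zero, one_smul]
    abel
  have e1 : ∫⁻ w, f (x - (2 : ℝ) ^ (-j) • w) * ENNReal.ofReal (kap L w) =
      ∫⁻ w, f (y - (2 : ℝ) ^ (-j) • w) * ENNReal.ofReal (kap L (w + a)) := by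
    rw [← lintegral_sub_right_eq_self (fun w => f (y - (2 : ℝ) ^ (-j) • w) *
      ENNReal.ofReal (kap L (w + a))) a]
    refine lintegral_congr fun w => ?_
    rw [hsub, sub_add_cancel]
  rw [e1, ← lintegral_const_mul' _ _ ENNReal.ofReal_ne_top]
  refine lintegral_mono fun w => ?_
  have h3 : ENNReal.ofReal (kap L (w + a)) ≤
      ENNReal.ofReal ((1 + ρ) ^ L) * ENNReal.ofReal (kap L w) := by
    rw [← ENNReal.ofReal_mul (by positivity)]
    apply ENNReal.ofReal_le_ofReal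
    refine (kap_shift L hL w a).trans ?_
    apply mul_le_mul_of_nonneg_right
    · exact Real.rpow_le_rpow (by positivity) (by linarith) hL
    · unfold kap
      positivity
  calc f (y - (2 : ℝ) ^ (-j) • w) * ENNReal.ofReal (kap L (w + a))
      ≤ f (y - (2 : ℝ) ^ (-j) • w) * (ENNReal.ofReal ((1 + ρ) ^ L) * ENNReal.ofReal (kap L w)) :=
        mul_le_mul_right h3 _
    _ = ENNReal.ofReal ((1 + ρ) ^ L) * (f (y - (2 : ℝ) ^ (-j) • w) * ENNReal.ofReal (kap L w)) := by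
        ring

end Run7.h991.BC
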