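import Pool.Agent.Run7.h991.BC.DY
import Pool.Agent.Run7.h126.BC.RP
import Pool.Agent.Run7.h126.BC.PE
import Pool.Agent.Run7.h991.BC.TS
import Pool.Agent.Run7.h991.BC.ML
import Pool.Agent.Run7.h224.BC.LB
import Pool.Agent.Run7.h991.BC.HF
import Pool.Agent.Run7.h557.BC.LW
import Pool.Agent.Run7.h991.BC.LF
import Pool.Agent.Run7.h991.BC.PT
import Pool.Agent.Run7.h224.BC.SC
import Pool.Agent.Run7.h991.BC.PK
import Pool.Agent.Run7.h557.BC.MU
import Pool.Agent.Run7.h557.BC.GEO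
import Pool.Agent.Run7.h781.BC.UBA
import Pool.Agent.Run7.h557.BC.UBB
import Pool.Agent.Run7.h991.BC.TR
import Pool.Agent.Run7.h224.BC.FIN
import Pool.Agent.Run7.h991.BC.AC
import Pool.Agent.Run7.h991.BC.SEL
import Pool.Agent.Run7.h594.BC.MK
import Pool.Agent.Run7.h991.BC.MX
import Pool.Agent.Run7.h991.BC.DG

/-!
# MP_9b3711_an: assembly of all the pieces
-/

set_option autoImplicit false

open MeasureTheory FourierTransform SchwartzMap
open scoped ENNReal ContDiff

namespace Run7.h991.BC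

theorem final_cut : S_CUT := Run7.h126.BC.t_CUT

theorem final_hf : S_HF := HF Run7.h126.BC.t_RP

theorem final_ac : S_AC := AC final_hf LF PT Run7.h224.BC.t_SC

theorem final_uba : S_UBA :=
  Run7.h781.BC.t_UBA DY Pool.Agent.Run7.h557.BC.lw final_ac PT (PK DY) (SEL DY)
    Pool.Agent.Run7.h557.BC.mu Pool.Agent.Run7.h557.BC.geo

theorem final_ubb : S_UBB :=
  Pool.Agent.Run7.h557.BC.ubb DY final_ac PT Pool.Agent.Run7.h557.BC.geo Pool.Agent.Run7.h557.BC.lw

theorem final_mx : S_MX := MXa.t_MX Pool.Agent.Run7.h594.BC.t_MK ML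

theorem final_lb : S_LB :=
  Run7.h224.BC.t_LB DY Run7.h126.BC.t_RP Run7.h126.BC.t_PE TS final_mx (DG DY)

theorem final_fin : S_FIN :=
  Run7.h224.BC.t_FIN final_lb final_uba final_ubb TR

end Run7.h991.BC
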