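import Pool.Agent.Run7.h991.BC.Defs

/-!
# MP_9b3711_an: interface

Every piece is a closed `Prop` with its proof in the doc string.  Notation: `|x|` is the Euclidean
norm, `l_Q = side j` the side of the cube `Q = cube j m`, `d = max (n - α p) 0`.

Outline.  Lower bound: `1 ≤ u` on `K` gives a finite dyadic cover `F` of `K` with
`∑ l ^ d ≤ C triebel u` (pieces RP, PE, TS, MK, ML, MX, DG, LB).  Upper bound: for every finite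
dyadic family `F` there is a smooth compactly supported `u ≥ 1` on its cubes with
`besov u ≤ C ∑ l ^ d` (pieces HF, LW, LF, AC, PT, PK, SEL, MU, GEO, UBA, UBB).  With
`triebel ≤ besov` (TR) the capacities are comparable (FIN).
-/

set_option autoImplicit false

open MeasureTheory FourierTransform SchwartzMap
open scoped ENNReal ContDiff

namespace Run7.h991.BC

/-! ### Dyadic cubes -/

/-- piece DY: basic facts on dyadic cubes (half open, `cube j m = {x | ⌊2^j x_i⌋ = m_i}`).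
(1) `⌊2^j t⌋ = ⌊2^(j+1) t⌋ / 2` (integer floor division).  (2), (3): the cube is the product of the
intervals `[2^(-j) m_i, 2^(-j) (m_i+1))`; use the volume preserving equivalence of
`EuclideanSpace ℝ (Fin n)` with `Fin n → ℝ` (`EuclideanSpace.volume_preserving_...`,
`Real.volume_pi_Ico`).
(4) nestedness: iterate (1): `cell j` is a function of `cell j'` for `j ≤ j'`.
(5) nonempty: the corner. (6) coordinates differ by at most `2^(-j)`; `EuclideanSpace.norm_eq`. -/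
def S_DY : Prop :=
  ∀ n : ℕ,
    (∀ (j : ℕ) (x : E n), cell j x = par (cell (j + 1) x)) ∧
    (∀ (j : ℕ) (m : Fin n → ℤ), MeasurableSet (cube j m)) ∧
    (∀ (j : ℕ) (m : Fin n → ℤ), volume (cube j m) = ENNReal.ofReal (side j ^ n)) ∧
    (∀ (j j' : ℕ) (m m' : Fin n → ℤ), j ≤ j' →
      cube j' m' ⊆ cube j m ∨ Disjoint (cube j' m') (cube j m)) ∧
    (∀ (j : ℕ) (m : Fin n → ℤ), (cube j m).Nonempty) ∧
    (∀ (j : ℕ) (x y : E n), cell j x = cell j y → ‖x - y‖ ≤ Real.sqrt n * (2 : ℝ) ^ (-(j : ℤ)))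

/-! ### Lower bound -/

/-- piece RP (Fourier side).  Let `Φ_j(y) = 2^(jn) Φ(2^j y)`, a Schwartz function
(`SchwartzMap.compCLMOfContinuousLinearEquiv` and a scalar) with `𝓕 Φ_j (ξ) = 𝓕 Φ (2^(-j) ξ)`; a
change of variables gives `S Φ j v = Φ_j ⋆ v`.  For `v = cx u`, `u` Schwartz, `S Φ j (cx u)` is the
Schwartz function `SchwartzMap.convolution ..` (file `Mathlib/Analysis/Fourier/Convolution.lean`:
`SchwartzMap.fourier_convolution_apply`, `convolution_apply`), so it is continuous and bounded, and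
its Fourier transform is `𝓕 Φ(2^(-j) ξ) 𝓕 u (ξ)`.  (b): for `i < j` one has
`𝓕 Φ(2^(-j) ξ) 𝓕 Φ(2^(-i) ξ) = 𝓕 Φ(2^(-i) ξ)` since `𝓕 Φ(2^(-i) ξ) ≠ 0` forces
`|2^(-j) ξ| < 1`; injectivity of `𝓕` on Schwartz functions.  (c): by Fourier inversion
`|S_i u (x) - u x| ≤ ∫ |𝓕 Φ(2^(-i) ξ) - 1| |𝓕 u (ξ)| dξ`, the integrand vanishes for `|ξ| ≤ 2^i`
and is otherwise `≤ (1 + sup |𝓕 Φ|) 2^(-iL) |ξ|^L |𝓕 u(ξ)|`. -/
def S_RP : Prop :=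
  ∀ (n : ℕ) (Φ : 𝓢(E n, ℂ)), IsCutoff Φ → ∀ u : 𝓢(E n, ℝ),
    (∀ j : ℤ, Continuous (S Φ j (cx u)) ∧ ∃ B : ℝ, ∀ x, ‖S Φ j (cx u) x‖ ≤ B) ∧
    (∀ i j : ℤ, i < j → ∀ x, S Φ j (S Φ i (cx u)) x = S Φ i (cx u) x) ∧
    (∀ L : ℕ, ∃ C : ℝ, ∀ (i : ℕ) (x : E n), ‖S Φ i (cx u) x - cx u x‖ ≤ C * (1 / 2) ^ (i * L))

/-- piece PE (Peetre's inequality).  Put `V(x) = v(2^(-j) x)`; then `V(x) = ∫ Φ(y) V(x - y/2) dy`,
hence (`|Φ(y)| ≤ C (1+|y|)^(-N)` and a change of variables, `N = L/r + L + n + 1`, any large `N`)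
`|V(y)| ≤ C ∫ (1+|y-z|)^(-N) |V(z)| dz`.  Let `λ = L/r`, `V*(x) = sup_z |V(z)| (1+|x-z|)^(-λ)`,
finite since `V` is bounded (`L ≥ 0`).  From `|V(z)| ≤ (V*(x) (1+|x-z|)^λ)^(1-r) |V(z)|^r` and
`(1+|x-y|)^(-λ) ≤ (1+|x-z|)^(-λ) (1+|y-z|)^λ` (submultiplicativity):
`|V(y)| (1+|x-y|)^(-λ) ≤ C V*(x)^(1-r) ∫ (1+|y-z|)^(-N+λ) (1+|x-z|)^(-λ r) |V(z)|^r dz
≤ C V*(x)^(1-r) ∫ (1+|x-z|)^(-L) |V(z)|^r dz`.  Take the supremum over `y` and divide: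
`|V(x)|^r ≤ V*(x)^r ≤ C ∫ (1+|x-z|)^(-L) |V(z)|^r dz` (trivial if `V*(x) = 0`, or if the integral is
infinite).  Scale back: the right side at `2^j x` is `C T_j(|v|^r)(x)`. -/
def S_PE : Prop :=
  ∀ (n : ℕ) (Φ : 𝓢(E n, ℂ)) (r L : ℝ), 0 < r → r ≤ 1 → 0 ≤ L →
    ∃ C : ℝ≥0∞, C ≠ ⊤ ∧ ∀ v : E n → ℂ, Continuous v → (∃ B : ℝ, ∀ x, ‖v x‖ ≤ B) → ∀ j : ℤ,
      (∀ x, v x = S Φ (j + 1) v x) → ∀ x, ‖v x‖ₑ ^ r ≤ C * T L j (fun z => ‖v z‖ₑ ^ r) x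

/-- piece TS (shift).  Substitute `w = w' + 2^j (x - y)` (translation invariance) and
`kap L (w' + a) ≤ (1+|a|)^L kap L w'` as `1+|w'| ≤ (1+|w'+a|)(1+|a|)`. -/
def S_TS : Prop :=
  ∀ (n : ℕ) (L ρ : ℝ), 0 ≤ L → 0 ≤ ρ → ∀ (j : ℤ) (f : E n → ℝ≥0∞) (x y : E n),
    ‖x - y‖ ≤ ρ * (2 : ℝ) ^ (-j) → T L j f x ≤ ENNReal.ofReal ((1 + ρ) ^ L) * T L j f y

/-- piece MK (kernel inequality).  Let `k = j - i ≥ 0`, `κ = kap L`, `κ_k(w) = 2^(kn) κ(2^k w)`.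
Both `T_i T_j f (x)` and `T_j T_i f (x)` equal (Tonelli, change of variables `w' = 2^k w''`)
`∫ f(x - 2^(-i) w) (κ * κ_k)(w) dw`, and `κ * κ_k ≤ C κ`: if `|w| ≤ 1` then
`(κ * κ_k)(w) ≤ ∫ κ_k = ∫ κ ≤ 2^L κ(w) ∫ κ`.  If `|w| > 1`, split
`∫ κ(w - y) κ_k(y) dy` at `|y| = |w|/2`: for `|y| ≤ |w|/2`, `κ(w-y) ≤ 2^L κ(w)`; for `|y| > |w|/2`,
`κ_k(y) ≤ 2^(kn) (2^k |w|/2)^(-L) ≤ 2^L |w|^(-L) ≤ 4^L κ(w)`, as `L > n` and `|w| ≥ 1`. The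
integral of `κ` is finite (`L > n`, `integrable_one_add_norm`). -/
def S_MK : Prop :=
  ∀ (n : ℕ) (L : ℝ), 1 ≤ n → (n : ℝ) < L → ∃ C : ℝ≥0∞, C ≠ ⊤ ∧ ∀ i j : ℤ, i ≤ j →
    ∀ f : E n → ℝ≥0∞, Measurable f → ∀ x,
      T L i (T L j f) x ≤ C * T L i f x ∧ T L j (T L i f) x ≤ C * T L i f x

/-- piece ML: measurability of `T_j f` (`Measurable.lintegral_prod_right'`), `L^2` bound
(`(∫ f κ)^2 ≤ (∫ κ) (∫ f^2 κ)` by Cauchy-Schwarz, Tonelli, translation invariance), and symmetry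
(`κ` is even, Tonelli, translation invariance). -/
def S_ML : Prop :=
  ∀ (n : ℕ) (L : ℝ), 1 ≤ n → (n : ℝ) < L →
    (∀ (j : ℤ) (f : E n → ℝ≥0∞), Measurable f → Measurable (T L j f)) ∧
    (∃ C : ℝ≥0∞, C ≠ ⊤ ∧ ∀ (j : ℤ) (f : E n → ℝ≥0∞), Measurable f →
      ∫⁻ x, (T L j f x) ^ 2 ≤ C * ∫⁻ x, (f x) ^ 2) ∧
    (∀ (j : ℤ) (f g : E n → ℝ≥0∞), Measurable f → Measurable g →
      ∫⁻ x, T L j f x * g x = ∫⁻ x, f x * T L j g x)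

/-- piece MX (maximal theorem), from MK and ML, by the `T T^*` trick.  Monotone convergence reduces
to `sup_(j ≤ J)` with `C` independent of `J`.  Let `(e_j)_(j ≤ J)` be indicator functions of a
measurable partition (first index where the maximum is attained), `U f = ∑ e_j T_j f`,
`U' h = ∑ T_j (e_j h)`, so `∫ (U f) h = ∫ f (U' h)`.  By ML and MK
`∫ (U' h)^2 = ∑_(i,j) ∫ e_i h T_i T_j (e_j h) ≤ C ∑_(i,j) ∫ e_i h T_(min(i,j)) (e_j h)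
≤ C ∑_(i ≤ j) ∫ e_i h T_i(e_j h) + C ∑_(j ≤ i) ∫ T_j(e_i h) e_j h ≤ 2 C ∫ h (U h)`.
Hence for `f` with `∫ f^2 < ∞`, with `h = U f`:
`∫ (U f)^2 = ∫ f U'(U f) ≤ |f|_2 |U'(U f)|_2` and `|U' h|_2^2 ≤ 2 C |h|_2 |U h|_2 ≤
2 C A |h|_2^2`, where `A` is the best constant in `|U f|_2 ≤ A |f|_2` over all measurable `f`,
finite because `U f ≤ ∑_(j≤J) T_j f`.  So `A^2 ≤ 2 C A`, i.e. `A ≤ 2 C`.
(Best constant: e.g. `A² := ⨆` over measurable `f` with `∫ f² = 1` or argue with the infimum of the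
admissible `A`: if `A` is admissible then so is `sqrt (2 C A)`, iterate.) -/
def S_MX : Prop :=
  ∀ (n : ℕ) (L : ℝ), 1 ≤ n → (n : ℝ) < L → ∃ C : ℝ≥0∞, C ≠ ⊤ ∧ ∀ f : E n → ℝ≥0∞, Measurable f →
    ∫⁻ x, (⨆ j : ℕ, T L j f x) ^ 2 ≤ C * ∫⁻ x, (f x) ^ 2

/-- piece DG (a dyadic content estimate; hypothesis S_DY).  Let `b j m = ⨅ y ∈ cube j m, g y`; may
assume `∫ g < ∞` (otherwise cover `K` by unit cubes), so `b j m < ∞`, and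
`b j (par m) ≤ b (j+1) m`.  Put `b' j m = b (j-1) (par m)` for `j ≥ 1`, `b' 0 m = 0`,
`c = 1/(1 - 2^(-θ))`, `lam j m = c 2^(-jθ) (b j m - b' j m)`.  Summation by parts:
`∑_(j ≤ J) 2^(-jθ) b_j(x) ≤ ∑_(j ≤ J) lam_j(x)` (values at the cubes of `x`).
Claim (induction on `r`): for all `j m` and `a`, if for all `x ∈ K ∩ cube j m`,
`1 ≤ a + ∑_(i=j)^(j+r) lam_i(x)`, then there is a finite family `F` of cubes covering
`K ∩ cube j m` with `(1 - a) ∑_F l^d + c l_j^n b' j m ≤ c ∫_(cube j m) g`, `d = max (n-θ) 0`.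
`r = 0`, or more generally if `1 ≤ a + lam j m`: take `F = {(j,m)}` (`∅` if `K ∩ cube j m = ∅`),
since `lam j m l^d ≤ c l^n (b - b')` because `θ + d ≥ n` and `l ≤ 1`, and `l^n b ≤ ∫_cube g`.
Step: if `a' := a + lam j m < 1`, apply the induction hypothesis to the `2^n` children with `a'` and
add up: `(1-a') X + c l_j^n b j m ≤ c ∫_(cube j m) g`, where `X` is the sum over all the `F`s of the
children.  Take `F = {(j,m)}` if `l_j^d ≤ X`, else the union; its sum `V` satisfies `V ≤ X` and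
`V ≤ l_j^d`, so `(1-a)V + c l^n b' ≤ (1-a')X + lam l^d + c l^n b' ≤ (1-a')X + c l^n b`.
Finally apply the claim with `j = 0`, `a = 0`, `r = J` to the finitely many unit cubes meeting `K`,
and add up; `C = c`. -/
def S_DG : Prop :=
  ∀ (n : ℕ) (θ : ℝ), 1 ≤ n → 0 < θ → ∃ C : ℝ≥0∞, C ≠ ⊤ ∧ ∀ g : E n → ℝ≥0∞, Measurable g →
    ∀ (J : ℕ) (K : Set (E n)), Bornology.IsBounded K →
    (∀ x ∈ K, 1 ≤ ∑ j ∈ Finset.range (J + 1),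
      ENNReal.ofReal (side j ^ θ) * ⨅ y ∈ cube j (cell j x), g y) →
    ∃ F : Finset (ℕ × (Fin n → ℤ)), (K ⊆ ⋃ q ∈ F, cube q.1 q.2) ∧
      ∑ q ∈ F, ENNReal.ofReal (side q.1 ^ (max ((n : ℝ) - θ) 0)) ≤ C * ∫⁻ x, g x

/-- piece LB (assembly of the lower bound; hypotheses S_DY S_RP S_PE S_TS S_MX S_DG).
`r = p/2`, `L = n+1`, `v_j = blk Φ j (cx u)`, `G(x) = (∑_j (2^(jα)|v_j(x)|)^2)^(1/2)`, so
`2^(jα)|v_j| ≤ G`.  By RP `v_j = S_(j+1) v_j` (linearity of the integral, everything bounded and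
continuous, `Φ` integrable).  PE: `|v_j(x)|^r ≤ C T_j(|v_j|^r)(x) ≤ C 2^(-jαr) T_j(G^r)(x)`, and by
TS (`ρ = sqrt n`, DY(6)) `≤ C' 2^(-jαr) H(y)` for all `y` in `cube j (cell j x)`, where
`H = ⨆_j T_j(G^r)`.  Square: `2^(jαp) |v_j(x)|^p ≤ g(y)`, `g := C'^2 H^2`, and by MX
`∫ g ≤ C'' ∫ G^(2r) = C'' triebel Φ α p (cx u)`.  RP(c) with `L = 1` gives `J` with
`|S_J u - u| ≤ 1/2`, so on `K`: `1/2 ≤ |S_J u(x)| ≤ ∑_(j ≤ J) |v_j(x)|` and (`p ≤ 1`)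
`2^(-p) ≤ ∑_(j≤J) |v_j(x)|^p ≤ ∑_(j≤J) 2^(-jαp) ⨅_(cube j (cell j x)) g`.  Apply DG to `2^p g`
with `θ = α p`. -/
def S_LB : Prop :=
  ∀ (n : ℕ) (Φ : 𝓢(E n, ℂ)), 1 ≤ n → IsCutoff Φ → ∀ α p : ℝ, 0 < α → 0 < p → p < 1 →
    ∃ C : ℝ≥0∞, C ≠ ⊤ ∧ ∀ (u : 𝓢(E n, ℝ)) (K : Set (E n)), Bornology.IsBounded K →
      (∀ x ∈ K, 1 ≤ u x) →
      ∃ F : Finset (ℕ × (Fin n → ℤ)), (K ⊆ ⋃ q ∈ F, cube q.1 q.2) ∧
        ∑ q ∈ F, ENNReal.ofReal (side q.1 ^ (max ((n : ℝ) - α * p) 0)) ≤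
          C * triebel Φ α p (cx u)

/-! ### Upper bound -/

/-- piece HF (finite Besov quasi-norm; hypothesis S_RP).  `|S_i u (x)| ≤ C (1+|x|)^(-L)` for all
`i ≥ 0` (kernel bound: `(1+|x|) ≤ (1+|x-2^(-i)y|)(1+|y|)`, `Φ` and `u` Schwartz), and
`|S_(i+1) u - S_i u| ≤ C 2^(-iN)` by RP(c).  Geometric mean:
`|S_(i+1)u(x) - S_i u(x)|^p ≤ C 2^(-iNp/2) (1+|x|)^(-Lp/2)`; take `Np/2 > αp` and `Lp/2 > n`. -/
def S_HF : Prop :=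
  ∀ (n : ℕ) (Φ : 𝓢(E n, ℂ)), 1 ≤ n → IsCutoff Φ → ∀ α p : ℝ, 0 < α → 0 < p → p < 1 →
    ∀ u : 𝓢(E n, ℝ), besov Φ α p (cx u) ≠ ⊤

/-- piece LW (extrapolation weights).  Nodes `l k = λ₀ (k+1)/M`; `w k = ∏_(i ≠ k) (1 - l i)/(l k - l i)`
(value at `1` of the Lagrange basis polynomial), so `∑ w k q(l k) = q(1)` for `deg q < M`
(`Lagrange.eq_interpolate`-type lemmas, `Lagrange.basis`), `|l k - l i| ≥ λ₀/M`, hence
`|w k| ≤ (M/λ₀)^(M-1)`, and `(l k)⁻¹ ≤ M/λ₀`. -/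
def S_LW : Prop :=
  ∀ n M : ℕ, 1 ≤ M → ∃ C : ℝ, 0 < C ∧ ∀ l0 : ℝ, 0 < l0 → l0 ≤ 1 → ∃ l w : Fin M → ℝ,
    (∀ k, 0 < l k ∧ l k ≤ l0) ∧ (∀ i < M, ∑ k, w k * l k ^ i = 1) ∧
    ∑ k, |w k| * ((l k)⁻¹) ^ n ≤ C * (l0⁻¹) ^ (n + M - 1)

/-- piece LF (low frequencies of an atom).  After the changes of variables `y' = 2^i y` and, in the
`k`-th term of the atom, `y = z + l_k (y'' - z)`:
`S_(-i) a (x) = 2^(-in) ∫ β(y) [q(1) - ∑ w_k q(l_k)] dy`, `q(s) = Φ(2^(-i)(x - z - s (y - z)))`.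
The `w_k` reproduce the value at `1` of every polynomial of degree `< M`, so by Taylor's formula at
`0` (`taylor_mean_remainder_bound`) `|q(1) - ∑ w_k q(l_k)| ≤ (1 + ∑|w_k|) sup_[0,1] |q^(M)|`, and
`|q^(M)(s)| ≤ (2^(-i) |y-z|)^M ‖iteratedFDeriv ℝ M Φ (2^(-i)(x - z - s(y-z)))‖
≤ C 2^(-iM) (1 + 2^(-i)|x|)^(-L)` for `|z| ≤ Λ`, `y` in the support of `β`, `s ∈ [0,1]`
(`1 + 2^(-i)|x| ≤ (1 + 2^(-i)|x - z - s(y-z)|) (1 + |z| + |y - z|)`).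
(`n`-th derivative along a line: `ContinuousLinearMap.iteratedFDeriv_comp_right`,
`norm_iteratedFDeriv_eq_norm_iteratedDeriv`.) -/
def S_LF : Prop :=
  ∀ (n M : ℕ) (Φ : 𝓢(E n, ℂ)), 1 ≤ M → ∀ l w : Fin M → ℝ,
    (∀ k, 0 < l k ∧ l k ≤ 1) → (∀ i < M, ∑ k, w k * l k ^ i = 1) →
    ∀ β : E n → ℝ, Continuous β → HasCompactSupport β → ∀ Λ L : ℝ, 0 ≤ L →
    ∃ C : ℝ, ∀ z : E n, ‖z‖ ≤ Λ → ∀ (i : ℕ) (x : E n),
      ‖S Φ (-(i : ℤ)) (cx (atm β l w z)) x‖ ≤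
        C * (1 / 2) ^ (i * (n + M)) * (1 + (1 / 2) ^ i * ‖x‖) ^ (-L)

/-- piece PT (finite `p`-triangle inequality for the Besov functional).  `S Φ j` is linear on
continuous compactly supported functions, `‖a+b‖^p ≤ ‖a‖^p + ‖b‖^p`, `lintegral_finset_sum`
(measurability: `S Φ j f` is continuous, e.g. by `continuous_of_dominated`), `ENNReal.tsum_add`. -/
def S_PT : Prop :=
  ∀ (n : ℕ) (Φ : 𝓢(E n, ℂ)) (α p : ℝ), 0 < p → p ≤ 1 → ∀ {ι : Type} (s : Finset ι) (c : ι → ℝ)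
    (f : ι → E n → ℝ), (∀ i ∈ s, Continuous (f i) ∧ HasCompactSupport (f i)) →
    besov Φ α p (cx fun x => ∑ i ∈ s, c i * f i x) ≤
      ∑ i ∈ s, ENNReal.ofReal (|c i| ^ p) * besov Φ α p (cx (f i))

/-- piece SC (scaling).  `S_j (v(2^g · - b))(x) = (S_(j-g) v)(2^g x - b)`, and the change of
variables in the integral. -/
def S_SC : Prop :=
  ∀ (n : ℕ) (Φ : 𝓢(E n, ℂ)) (v : E n → ℂ) (g : ℕ) (b : E n),
    (∀ (j : ℤ) (x : E n), S Φ j (fun x => v ((2 : ℝ) ^ g • x - b)) x =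
      S Φ (j - g) v ((2 : ℝ) ^ g • x - b)) ∧
    (∀ f : E n → ℝ≥0∞, ∫⁻ x, f ((2 : ℝ) ^ g • x - b) = ENNReal.ofReal (side g ^ n) * ∫⁻ x, f x)

/-- piece AC (cost of an atom; hypotheses S_HF S_LF S_PT S_SC).  Let `a = atm β l w z` and
`a'(x) = a(2^g x - b)`.  By SC, `besov a' = 2^(-gn) (∫|S_(-g) a|^p + ∑_(j≥1) 2^(jαp)
∫|S_(j-g)a - S_(j-1-g)a|^p)`.  With `i = j - g`:
`∑_(j≥1) .. = 2^(gαp) ∑_(i > -g) 2^(iαp) ∫|S_i a - S_(i-1)a|^p`.  High part `i ≥ 1`: at most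
`besov a`, bounded uniformly in `z` by PT, HF and translation invariance (SC with `g = 0`), since
the `k`-th term of `a` is a translate of the fixed function `x ↦ β(x/l_k)` times a constant
(`z + l⁻¹ (x - z) = l⁻¹ (x - (1-l) z)`).
Low part `i ≤ 0`: by LF with `L p > n`,
`∫|S_(-i) a|^p ≤ C 2^(-i(n+M)p) 2^(in)` (`i ≥ 0`), so `2^(-iαp) ∫|S_(-i)a|^p ≤ C 2^(-iε)` with
`ε = αp + (n+M)p - n > 0`; sum over `i ≥ 0`, using `|S_i a - S_(i-1) a|^p ≤ |S_i a|^p +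
|S_(i-1)a|^p`; also `∫|S_(-g) a|^p ≤ C 2^(gαp)`.  Altogether
`besov a' ≤ C 2^(-gn) 2^(gαp) = C side g ^ (n-αp)`.  The second claim is SC with `g = 0` and HF. -/
def S_AC : Prop :=
  ∀ (n M : ℕ) (Φ : 𝓢(E n, ℂ)), 1 ≤ n → IsCutoff Φ → ∀ α p : ℝ, 0 < α → 0 < p → p < 1 → 1 ≤ M →
    (n : ℝ) < α * p + (n + M) * p → ∀ l w : Fin M → ℝ,
    (∀ k, 0 < l k ∧ l k ≤ 1) → (∀ i < M, ∑ k, w k * l k ^ i = 1) →
    ∀ β : E n → ℝ, ContDiff ℝ ∞ β → HasCompactSupport β → ∀ Λ : ℝ,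
    ∃ C : ℝ≥0∞, C ≠ ⊤ ∧
      (∀ z : E n, ‖z‖ ≤ Λ → ∀ (g : ℕ) (b : E n),
        besov Φ α p (cx fun x => atm β l w z ((2 : ℝ) ^ g • x - b)) ≤
          C * ENNReal.ofReal (side g ^ ((n : ℝ) - α * p))) ∧
      (∀ b : E n, besov Φ α p (cx fun x => β (x - b)) ≤ C)

/-- piece PK (packing cover; hypothesis S_DY).  Let `A` be the finite set of all ancestors (of
generation `≥ 0`, including itself) of the elements of `F`.  Among the subsets of `A` whose union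
contains all the cubes of `F` let `R` minimise `∑ l^d` (`Finset.exists_min_image`).  If two
different cubes of `R` meet, one contains the other (DY(4)); removing the smaller one lowers the
sum.  If `Q` is not inside a cube of `R` and `∑_(cubes of R inside Q) l^d > l_Q^d > 0`, then
`Q ∈ A` (it contains a cube of `R`, of larger generation), and replacing the cubes of `R` inside
`Q` by `Q` lowers the sum.  (Same generation and one inside the other means equal, DY(5).) -/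
def S_PK : Prop :=
  ∀ (n : ℕ) (d : ℝ), 0 < d → ∀ F : Finset (ℕ × (Fin n → ℤ)),
    ∃ R : Finset (ℕ × (Fin n → ℤ)),
      (∀ q ∈ F, ∀ x ∈ cube q.1 q.2, ∃ q' ∈ R, x ∈ cube q'.1 q'.2) ∧
      (∀ q ∈ R, ∀ q' ∈ R, q ≠ q' → Disjoint (cube q.1 q.2) (cube q'.1 q'.2)) ∧
      ∑ q ∈ R, side q.1 ^ d ≤ ∑ q ∈ F, side q.1 ^ d ∧
      (∀ Q : ℕ × (Fin n → ℤ), (∀ q ∈ R, ¬ cube Q.1 Q.2 ⊆ cube q.1 q.2) →
        ∀ R' : Finset (ℕ × (Fin n → ℤ)), (∀ q, q ∈ R' ↔ (q ∈ R ∧ cube q.1 q.2 ⊆ cube Q.1 Q.2)) →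
        ∑ q ∈ R', side q.1 ^ d ≤ side Q.1 ^ d)

/-- piece SEL (selection; hypothesis S_DY).  `R` is a disjoint packing family, `(g+1, m) ∈ R`,
`P = cube g (par m)` its parent, not inside a cube of `R` (disjointness).  The cubes of `R` inside
`P` have generation `≥ g+1` and total volume
`∑ l^n ≤ (2^(-(g+1)))^(n-d) ∑ l^d ≤ 2^(-(g+1)(n-d)) 2^(-gd) = 2^(-(n-d)) |P|`.  Let `X` be `P` minus
the cubes of `R` (those meeting `P` are inside `P`): `|X| ≥ (1 - 2^(-(n-d))) |P|`.  Let `I` be the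
finite set of indices `m'` of the cubes of generation `g+1+t` meeting `X`: they lie in `P`, are not
inside a cube of `R`, and cover `X`, so `#I 2^(-(g+1+t)n) ≥ (1 - 2^(-(n-d))) 2^(-gn)`, i.e.
`#I ≥ (1 - 2^(-(n-d))) 2^((t+1)n)`.  The sums `∑_(cubes of R inside cube (g+1+t) m') l^d`, `m' ∈ I`,
add up to at most `∑_(inside P) l^d ≤ 2^(-gd)`, so one of them is
`≤ 2^(-gd)/#I ≤ C 2^(-tn) side(g+1)^d`. -/
def S_SEL : Prop :=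
  ∀ (n : ℕ) (d : ℝ), 0 < d → d < n → ∃ C : ℝ, 0 < C ∧ ∀ R : Finset (ℕ × (Fin n → ℤ)),
    (∀ q ∈ R, ∀ q' ∈ R, q ≠ q' → Disjoint (cube q.1 q.2) (cube q'.1 q'.2)) →
    (∀ Q : ℕ × (Fin n → ℤ), (∀ q ∈ R, ¬ cube Q.1 Q.2 ⊆ cube q.1 q.2) →
      ∀ R' : Finset (ℕ × (Fin n → ℤ)), (∀ q, q ∈ R' ↔ (q ∈ R ∧ cube q.1 q.2 ⊆ cube Q.1 Q.2)) →
      ∑ q ∈ R', side q.1 ^ d ≤ side Q.1 ^ d) →
    ∀ (g : ℕ) (m : Fin n → ℤ), (g + 1, m) ∈ R → ∀ t : ℕ,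
    ∃ m' : Fin n → ℤ, cube (g + 1 + t) m' ⊆ cube g (par m) ∧
      (∀ q ∈ R, ¬ cube (g + 1 + t) m' ⊆ cube q.1 q.2) ∧
      ∀ R' : Finset (ℕ × (Fin n → ℤ)),
        (∀ q, q ∈ R' ↔ (q ∈ R ∧ cube q.1 q.2 ⊆ cube (g + 1 + t) m')) →
        ∑ q ∈ R', side q.1 ^ d ≤ C * (1 / 2) ^ (t * n) * side (g + 1) ^ d

/-- piece MU (multipliers).  `m⁰ = 1`, `m^(k+1)_j = 1 + ∑_(i : j ∈ A i) h m^k_i`; increasing in `k`.
`T_k = ∑ (m^k_i)^p W_i`; as `(1 + ∑ a_i)^p ≤ 1 + ∑ a_i^p`,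
`T_(k+1) ≤ ∑ W + ∑_j W_j ∑_(i : j ∈ A i) h^p (m^k_i)^p = ∑ W + ∑_i (m^k_i)^p h^p ∑_(j ∈ A i) W_j
≤ ∑ W + T_k / 2`, so `T_k ≤ 2 ∑ W`.  So `m^k` is bounded; its limit satisfies all the claims. -/
def S_MU : Prop :=
  ∀ {ι : Type} [DecidableEq ι] (s : Finset ι) (W : ι → ℝ) (A : ι → Finset ι) (h p : ℝ),
    0 ≤ h → 0 < p → p ≤ 1 → (∀ i ∈ s, 0 < W i) → (∀ i ∈ s, A i ⊆ s) →
    (∀ i ∈ s, h ^ p * ∑ j ∈ A i, W j ≤ W i / 2) →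
    ∃ m : ι → ℝ, (∀ i ∈ s, 1 ≤ m i) ∧
      (∀ j ∈ s, 1 + ∑ i ∈ s.filter (fun i => j ∈ A i), h * m i ≤ m j) ∧
      ∑ i ∈ s, (m i) ^ p * W i ≤ 2 * ∑ i ∈ s, W i

/-- the centre of the dyadic cube `cube j m` -/
noncomputable def ctr {n : ℕ} (j : ℕ) (m : Fin n → ℤ) : E n :=
  WithLp.toLp 2 (fun i => (1 / 2 : ℝ) ^ j * ((m i : ℝ) + 1 / 2))

/-- piece GEO.  `β` is a `ContDiffBump` at `0` with radii `sqrt n` and `2 sqrt n`.  In the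
coordinates `y = 2^g x - 2^g ctr g m` the cube `cube g m` is `[-1/2,1/2)^n` (`|y| ≤ sqrt n / 2`),
the parent `cube (g-1) (par m)` is inside `[-3/2, 3/2]^n`, and the cube `cube (g+t) m'` is
`z + [-2^(-t)/2, 2^(-t)/2)^n`, `z = 2^g (ctr (g+t) m' - ctr g m)`, `|z| ≤ (3/2) sqrt n`.  If
`β(z + l⁻¹ (y - z)) ≠ 0` with `0 < l ≤ 2^(-t)/(8 sqrt n)`, then `|z + l⁻¹(y-z)| ≤ 2 sqrt n`, so
`|y - z| ≤ l (7/2) sqrt n < 2^(-t)/2`, so `x ∈ cube (g+t) m'`. -/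
def S_GEO : Prop :=
  ∀ n : ℕ, 1 ≤ n → ∃ β : E n → ℝ, ContDiff ℝ ∞ β ∧ HasCompactSupport β ∧
    (∀ y, 0 ≤ β y ∧ β y ≤ 1) ∧
    (∀ (g : ℕ) (m : Fin n → ℤ), ∀ x ∈ cube g m,
      β ((2 : ℝ) ^ g • x - (2 : ℝ) ^ g • ctr g m) = 1) ∧
    (∀ (g t : ℕ) (m m' : Fin n → ℤ), cube (g + 1 + t) m' ⊆ cube g (par m) →
      ‖(2 : ℝ) ^ (g + 1) • (ctr (g + 1 + t) m' - ctr (g + 1) m)‖ ≤ 2 * Real.sqrt n ∧
      ∀ l : ℝ, 0 < l → l ≤ (1 / 2) ^ t / (8 * Real.sqrt n) → ∀ x : E n,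
        β ((2 : ℝ) ^ (g + 1) • (ctr (g + 1 + t) m' - ctr (g + 1) m) +
          l⁻¹ • (((2 : ℝ) ^ (g + 1) • x - (2 : ℝ) ^ (g + 1) • ctr (g + 1) m) -
            (2 : ℝ) ^ (g + 1) • (ctr (g + 1 + t) m' - ctr (g + 1) m))) ≠ 0 →
        x ∈ cube (g + 1 + t) m')

/-- piece UBA (assembly of the upper bound for `αp < n`; hypotheses S_DY S_LW S_AC S_PT S_PK S_SEL
S_MU S_GEO).  `d = n - αp ∈ (0,n)`, `M = ⌊n(1/p-1) - α⌋₊ + 1`, so `n < αp + (n+M)p`, and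
`p (n + M - 1) < n` (because `M - 1 ≤ max 0 (n(1/p-1) - α)`).  `β` from GEO.  For `t` (chosen
below) `l0 = (1/2)^t/(8 sqrt n)`, and `l, w` from LW, `h = ∑|w k| (l k)^(-n) ≤ C₁ 2^(t(n+M-1))`.
Choose `t` such that `h^p C₂ 2^(-tn) ≤ 1/2` (`C₂` from SEL).  `R` from PK for `F`, `d`.  For
`q = (g+1, m) ∈ R` let `m'` be given by SEL, `A q` the set of the cubes of `R` inside
`cube (g+1+t) m'`, `a_q(x) = atm β l w z (2^(g+1) x - 2^(g+1) ctr (g+1) m)` with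
`z = 2^(g+1) (ctr (g+1+t) m' - ctr (g+1) m)`; for `q = (0, m) ∈ R` let `A q = ∅`,
`a_q(x) = β(x - ctr 0 m)`.  MU (with `W q = side q.1 ^ d`) gives `m_q`; `u = ∑_(q ∈ R) m_q a_q`.
If `x ∈ cube q₂`, `q₂ ∈ R`: the first term of `a_(q₂)` is `1`, the first terms of the others are
`≥ 0`, and the second term of `a_q` is at least `-h`, and zero unless `x ∈ cube (g+1+t) m'`, in which
case (nested cubes, DY(4), the second one not being inside `cube q₂`) `q₂ ∈ A q`.  So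
`u x ≥ m_(q₂) - ∑_(q : q₂ ∈ A q) h m_q ≥ 1`.  By PT and AC
`besov u ≤ ∑ m_q^p C side^(d) ≤ 2 C ∑_R side^d ≤ 2 C ∑_F side^d`. -/
def S_UBA : Prop :=
  ∀ (n : ℕ), 1 ≤ n → ∀ (Φ : 𝓢(E n, ℂ)), IsCutoff Φ → ∀ α p : ℝ, 0 < α → 0 < p → p < 1 →
    α * p < n → ∃ C : ℝ≥0∞, C ≠ ⊤ ∧ ∀ F : Finset (ℕ × (Fin n → ℤ)),
      ∃ u : E n → ℝ, ContDiff ℝ ∞ u ∧ HasCompactSupport u ∧
        (∀ q ∈ F, ∀ x ∈ cube q.1 q.2, 1 ≤ u x) ∧
        besov Φ α p (cx u) ≤ C * ∑ q ∈ F, ENNReal.ofReal (side q.1 ^ ((n : ℝ) - α * p))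

/-- piece UBB (the case `αp ≥ n`; in fact no condition on `αp` is needed for this statement;
hypotheses S_DY S_AC S_PT S_GEO S_LW).  Let `F₀` be the set of the unit cubes `(0, m₀)` containing
the cubes of `F` (`#F₀ ≤ #F`), `u(x) = ∑_(F₀) β(x - ctr 0 m₀)`; PT and the second claim of AC
(for the weights of LW with `M` large and `l0 = 1`). -/
def S_UBB : Prop :=
  ∀ (n : ℕ), 1 ≤ n → ∀ (Φ : 𝓢(E n, ℂ)), IsCutoff Φ → ∀ α p : ℝ, 0 < α → 0 < p → p < 1 →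
    ∃ C : ℝ≥0∞, C ≠ ⊤ ∧ ∀ F : Finset (ℕ × (Fin n → ℤ)),
      ∃ u : E n → ℝ, ContDiff ℝ ∞ u ∧ HasCompactSupport u ∧
        (∀ q ∈ F, ∀ x ∈ cube q.1 q.2, 1 ≤ u x) ∧ besov Φ α p (cx u) ≤ C * (F.card : ℝ≥0∞)

/-! ### Final -/

/-- piece TR.  `(∑ a_j^2)^(p/2) ≤ ∑ a_j^p` (`p/2 ≤ 1`, `ENNReal` sums), then `lintegral_tsum`; the
blocks of a Schwartz function are measurable (continuous). -/
def S_TR : Prop :=
  ∀ (n : ℕ) (Φ : 𝓢(E n, ℂ)) (α p : ℝ), 0 < p → p ≤ 2 → ∀ u : 𝓢(E n, ℝ),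
    triebel Φ α p (cx u) ≤ besov Φ α p (cx u)

/-- piece CUT: a cut-off exists: the inverse Fourier transform of a smooth bump. -/
def S_CUT : Prop := ∀ n : ℕ, ∃ Φ : 𝓢(E n, ℂ), IsCutoff Φ

/-- piece FIN (hypotheses S_LB S_UBA S_UBB S_TR S_DY): the final statement. -/
def S_FIN : Prop :=
  ∀ (n : ℕ), 1 ≤ n → ∀ (Φ : 𝓢(E n, ℂ)), IsCutoff Φ → ∀ α p : ℝ, 0 < α → 0 < p → p < 1 →
    ∃ C : ℝ≥0∞, C ≠ ⊤ ∧ ∀ D : Set (E n → ℝ),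
      (∀ u : E n → ℝ, ContDiff ℝ ∞ u → HasCompactSupport u → u ∈ D) →
      (∀ u ∈ D, ∃ f : 𝓢(E n, ℝ), (f : E n → ℝ) = u) →
      ∀ K : Set (E n), IsCompact K →
        cap (triebel Φ α p) D K ≤ cap (besov Φ α p) D K ∧
        cap (besov Φ α p) D K ≤ C * cap (triebel Φ α p) D K

end Run7.h991.BC
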