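import Mathlib

/-!
# MP_9b3711_an: Besov versus Hardy-Bessel capacities for `0 < p < 1`: definitions of the statement
-/

set_option autoImplicit false

open MeasureTheory FourierTransform SchwartzMap
open scoped ENNReal ContDiff

namespace Run7.h991.BC

/-- Euclidean space of dimension `n`. -/
abbrev E (n : ℕ) := EuclideanSpace ℝ (Fin n)

/-- A Littlewood-Paley cut-off: a Schwartz function whose Fourier transform is `1` on the closed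
unit ball and `0` outside the open ball of radius `2`. -/
structure IsCutoff {n : ℕ} (Φ : 𝓢(E n, ℂ)) : Prop where
  one : ∀ ξ : E n, ‖ξ‖ ≤ 1 → 𝓕 (Φ : E n → ℂ) ξ = 1
  zero : ∀ ξ : E n, 2 ≤ ‖ξ‖ → 𝓕 (Φ : E n → ℂ) ξ = 0

/-- The low frequency part `S_j v = (2 ^ (j n) Φ (2 ^ j ·)) * v`, written after the change of
variables: `S_j v (x) = ∫ Φ (y) v (x - 2 ^ (-j) y) dy`. -/
noncomputable def S {n : ℕ} (Φ : 𝓢(E n, ℂ)) (j : ℤ) (v : E n → ℂ) (x : E n) : ℂ :=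
  ∫ y, Φ y * v (x - (2 : ℝ) ^ (-j) • y)

/-- The Littlewood-Paley blocks: `Δ_0 = S_0` and `Δ_(j+1) = S_(j+1) - S_j`. -/
noncomputable def blk {n : ℕ} (Φ : 𝓢(E n, ℂ)) : ℕ → (E n → ℂ) → E n → ℂ
  | 0, v, x => S Φ 0 v x
  | j + 1, v, x => S Φ ((j : ℤ) + 1) v x - S Φ (j : ℤ) v x

/-- The `p`-th power of the quasi-norm of the Besov space `Λ^{pp}_α = B^{α}_{p,p}`:
`∑_j 2 ^ (j α p) ∫ |Δ_j v| ^ p`. -/
noncomputable def besov {n : ℕ} (Φ : 𝓢(E n, ℂ)) (α p : ℝ) (v : E n → ℂ) : ℝ≥0∞ :=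
  ∑' j : ℕ, ENNReal.ofReal ((2 : ℝ) ^ ((j : ℝ) * α * p)) * ∫⁻ x, ‖blk Φ j v x‖ₑ ^ p

/-- The `p`-th power of the quasi-norm of the Lizorkin-Triebel space `F^{p2}_α`:
`∫ (∑_j (2 ^ (j α) |Δ_j v|) ^ 2) ^ (p / 2)`. -/
noncomputable def triebel {n : ℕ} (Φ : 𝓢(E n, ℂ)) (α p : ℝ) (v : E n → ℂ) : ℝ≥0∞ :=
  ∫⁻ x, (∑' j : ℕ, (ENNReal.ofReal ((2 : ℝ) ^ ((j : ℝ) * α)) * ‖blk Φ j v x‖ₑ) ^ (2 : ℝ)) ^ (p / 2)

/-- a real function seen as a complex one -/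
def cx {n : ℕ} (u : E n → ℝ) : E n → ℂ := fun x => (u x : ℂ)

/-- The capacity of `K` defined by the functional `N` and the class `D` of test functions:
the infimum of `N u` over the `u ∈ D` with `u ≥ 1` on `K`. -/
noncomputable def cap {n : ℕ} (N : (E n → ℂ) → ℝ≥0∞) (D : Set (E n → ℝ)) (K : Set (E n)) : ℝ≥0∞ :=
  ⨅ u ∈ {u : E n → ℝ | u ∈ D ∧ ∀ x ∈ K, 1 ≤ u x}, N (cx u)

end Run7.h991.BC
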